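import Mathlib

/-!
# Woven graphs: definitions and the gluing criterion (helper68)
-/

set_option autoImplicit false

namespace Pool.Agent.R68.Wov

open Finset

/-- `f` is (the vertex map of) a copy of `G` in `F`. -/
def IsCopy {V W : Type} (G : SimpleGraph V) (F : SimpleGraph W) (f : V → W) : Prop :=
  Function.Injective f ∧ ∀ x y, G.Adj x y → F.Adj (f x) (f y)

/-- the edge `e` belongs to the copy `f` of `G` -/
def EdgeIn {V W : Type} (G : SimpleGraph V) (f : V → W) (e : Sym2 W) : Prop :=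
  ∃ x y, G.Adj x y ∧ s(f x, f y) = e

/-- `G` is `k`-woven: for every finite graph `F` and every edge `uv` of `F` lying in all copies
of `G` in `F` there is a set `Y = A ∪ B` of edges of `F` other than `uv`, with `A` a set of at most
`k` edges incident to `u` and `B` a set of at most `k` edges incident to `v`, such that every copy
of `G` in `F` contains an edge of `Y`. -/
def KWoven {V : Type} (k : ℕ) (G : SimpleGraph V) : Prop :=
  ∀ (W : Type) [Finite W] (F : SimpleGraph W) (u v : W), F.Adj u v →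
    (∀ f : V → W, IsCopy G F f → EdgeIn G f s(u, v)) →
    ∃ A B : Finset (Sym2 W),
      (∀ e ∈ A, e ∈ F.edgeSet ∧ e ≠ s(u, v) ∧ u ∈ e) ∧
      (∀ e ∈ B, e ∈ F.edgeSet ∧ e ≠ s(u, v) ∧ v ∈ e) ∧
      A.card ≤ k ∧ B.card ≤ k ∧
      ∀ f : V → W, IsCopy G F f → ∃ e, (e ∈ A ∨ e ∈ B) ∧ EdgeIn G f e

/-- a graph is woven if it is `k`-woven for some `k` -/
def Woven {V : Type} (G : SimpleGraph V) : Prop := ∃ k, KWoven k G

/-- `G` is the star `K_{1,s}` for some `s ≥ 2`. -/
def IsStar {V : Type} (G : SimpleGraph V) : Prop :=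
  ∃ s : ℕ, 2 ≤ s ∧ Nonempty (G ≃g completeBipartiteGraph (Fin 1) (Fin s))

/-- `G` is an `s`-suitable caterpillar for some `s ≥ 1`: a tree consisting of a path `p q r` and at
most `3 s - 1` further vertices of degree one, where `p`, `r` have degree exactly `s + 1` and `q` has
degree at most `s + 1`. -/
def IsSuitable {V : Type} (G : SimpleGraph V) : Prop :=
  ∃ s : ℕ, 1 ≤ s ∧ G.IsTree ∧ ∃ p q r : V, p ≠ r ∧ G.Adj p q ∧ G.Adj q r ∧
    (G.neighborSet p).ncard = s + 1 ∧ (G.neighborSet r).ncard = s + 1 ∧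
    (G.neighborSet q).ncard ≤ s + 1 ∧
    (∀ x, x ≠ p → x ≠ q → x ≠ r → (G.neighborSet x).ncard = 1) ∧
    ({x | x ≠ p ∧ x ≠ q ∧ x ≠ r} : Set V).ncard ≤ 3 * s - 1

/-- Embedding data of `G` into `F_M(G;K) - ab`: `g` is the projection to `G`, `i` the index of the
copy (irrelevant for vertices mapped to `K`). -/
structure Emb {V : Type} (G : SimpleGraph V) (a b : V) (K : Set V) where
  g : V → V
  i : V → ℕ
  adj : ∀ x y, G.Adj x y → G.Adj (g x) (g y)
  nab : ∀ x y, G.Adj x y → ¬ (g x = a ∧ g y = b)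
  idx : ∀ x y, G.Adj x y → g x ∉ K → g y ∉ K → i x = i y
  inj : ∀ x y, g x = g y → (g x ∈ K ∨ i x = i y) → x = y

/-- admissible data for the gluing criterion -/
structure Adm {V : Type} (G : SimpleGraph V) (a b : V) (K : Set V) : Prop where
  adj : G.Adj a b
  ha : ∃ c, G.Adj a c ∧ c ≠ b
  hb : ∃ c, G.Adj b c ∧ c ≠ a
  aK : a ∈ K
  bK : b ∈ K
  Na : ∀ x ∈ K, G.Adj a x → x = b
  Nb : ∀ x ∈ K, G.Adj b x → x = a

end Pool.Agent.R68.Wov
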