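import Mathlib
import Pool.Agent.R68.Woven.Defs

/-!
# Two-connected vertex sets, and two descent lemmas (helper68)
-/

set_option autoImplicit false

namespace Pool.Agent.R68.Wov

open Relation

lemma rtg_lift {α β : Type} {r : α → α → Prop} {p : β → β → Prop} (f : α → β)
    (h : ∀ a b, r a b → ReflTransGen p (f a) (f b)) {a b : α} (hab : ReflTransGen r a b) :
    ReflTransGen p (f a) (f b) := by
  induction hab with
  | refl => exact ReflTransGen.refl
  | tail _ h' ih => exact ih.trans (h _ _ h')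

section

variable {V U : Type}

/-- one step inside `D` -/
def St (G : SimpleGraph V) (D : Set V) (x y : V) : Prop := G.Adj x y ∧ x ∈ D ∧ y ∈ D

/-- reachability inside `D` -/
abbrev Rch (G : SimpleGraph V) (D : Set V) : V → V → Prop := ReflTransGen (St G D)

/-- connected vertex set -/
def Con (G : SimpleGraph V) (D : Set V) : Prop := ∀ u ∈ D, ∀ v ∈ D, Rch G D u v

/-- connected vertex set without cut vertex -/
def TC (G : SimpleGraph V) (D : Set V) : Prop :=
  Con G D ∧ ∀ x ∈ D, Con G (D \ {x})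

lemma Rch.symm {G : SimpleGraph V} {D : Set V} {u v : V} (h : Rch G D u v) : Rch G D v u := by
  induction h with
  | refl => exact ReflTransGen.refl
  | tail _ h ih => exact ReflTransGen.head ⟨h.1.symm, h.2.2, h.2.1⟩ ih

lemma Rch.mono {G : SimpleGraph V} {D D' : Set V} (hD : D ⊆ D') {u v : V} (h : Rch G D u v) :
    Rch G D' u v :=
  rtg_lift (fun x => x) (fun _ _ h => ReflTransGen.single ⟨h.1, hD h.2.1, hD h.2.2⟩) h

/-- a set closed under the steps cannot be left -/
lemma Rch.stay {G : SimpleGraph V} {D A : Set V} {u v : V} (h : Rch G D u v) (hu : u ∈ A)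
    (hA : ∀ x y, G.Adj x y → x ∈ D → y ∈ D → x ∈ A → y ∈ A) : v ∈ A := by
  induction h with
  | refl => exact hu
  | tail _ h ih => exact hA _ _ h.1 h.2.1 h.2.2 ih

lemma Con.union {G : SimpleGraph V} {D D' : Set V} (h : Con G D) (h' : Con G D') (c : V)
    (hc : c ∈ D) (hc' : c ∈ D') : Con G (D ∪ D') := by
  have key : ∀ u ∈ D ∪ D', Rch G (D ∪ D') u c := by
    rintro u (hu | hu)
    · exact (h u hu c hc).mono Set.subset_union_left
    · exact (h' u hu c hc').mono Set.subset_union_right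
  intro u hu v hv
  exact (key u hu).trans (key v hv).symm

/-- the union of two sets without cut vertices sharing two vertices has no cut vertex -/
lemma TC.union {G : SimpleGraph V} {D D' : Set V} (h : TC G D) (h' : TC G D') (c d : V)
    (hcd : c ≠ d) (hc : c ∈ D) (hc' : c ∈ D') (hd : d ∈ D) (hd' : d ∈ D') : TC G (D ∪ D') := by
  have hcon : ∀ x, ∀ E, TC G E → Con G (E \ {x}) := by
    intro x E hE
    by_cases hx : x ∈ E
    · exact hE.2 x hx
    · rw [Set.sdiff_singleton_eq_self hx]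
      exact hE.1
  refine ⟨h.1.union h'.1 c hc hc', ?_⟩
  intro x _
  rw [Set.union_sdiff_distrib]
  by_cases hx : x = c
  · subst hx
    exact (hcon _ D h).union (hcon _ D' h') d ⟨hd, by simpa using hcd.symm⟩
      ⟨hd', by simpa using hcd.symm⟩
  · exact (hcon _ D h).union (hcon _ D' h') c ⟨hc, by simpa using (Ne.symm hx)⟩
      ⟨hc', by simpa using (Ne.symm hx)⟩

/-- image of a connected set -/
lemma Con.image {B : SimpleGraph U} {G : SimpleGraph V} {D : Set U} (h : Con B D) (f : U → V)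
    (hf : ∀ x y, B.Adj x y → x ∈ D → y ∈ D → G.Adj (f x) (f y)) : Con G (f '' D) := by
  rintro _ ⟨u, hu, rfl⟩ _ ⟨v, hv, rfl⟩
  exact rtg_lift f (fun x y hxy => ReflTransGen.single ⟨hf x y hxy.1 hxy.2.1 hxy.2.2,
    ⟨x, hxy.2.1, rfl⟩, ⟨y, hxy.2.2, rfl⟩⟩) (h u hu v hv)

lemma TC.image {B : SimpleGraph U} {G : SimpleGraph V} {D : Set U} (h : TC B D) (f : U → V)
    (hinj : Set.InjOn f D)
    (hf : ∀ x y, B.Adj x y → x ∈ D → y ∈ D → G.Adj (f x) (f y)) : TC G (f '' D) := by
  refine ⟨h.1.image f hf, ?_⟩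
  rintro _ ⟨x, hx, rfl⟩
  have h1 : f '' D \ {f x} = f '' (D \ {x}) := by
    ext z
    constructor
    · rintro ⟨⟨y, hy, rfl⟩, hz⟩
      refine ⟨y, ⟨hy, ?_⟩, rfl⟩
      rintro rfl
      exact hz rfl
    · rintro ⟨y, ⟨hy, hyx⟩, rfl⟩
      refine ⟨⟨y, hy, rfl⟩, ?_⟩
      intro h2
      exact hyx (hinj hy hx h2)
  rw [h1]
  exact (h.2 x hx).image f (fun u v huv hu hv => hf u v huv hu.1 hv.1)

/-- cutting a connected set at a cut vertex -/
lemma Con.cut {G : SimpleGraph V} {D X Q : Set V} (h : Con G D) (p : V) (_hp : p ∈ D)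
    (hpX : p ∈ X) (hXQ : X ∪ Q = Set.univ)
    (hno : ∀ x ∈ X, ∀ y ∈ Q, G.Adj x y → x = p ∨ y = p ∨ y ∈ X) : Con G (D ∩ X) := by
  classical
  intro u hu v hv
  have h1 := h u hu.1 v hv.1
  let r : V → V := fun y => if y ∈ X then y else p
  have h2 : ∀ x y, St G D x y → Rch G (D ∩ X) (r x) (r y) := by
    intro x y hxy
    by_cases hx : x ∈ X
    · by_cases hy : y ∈ X
      · simp only [r, if_pos hx, if_pos hy]
        exact ReflTransGen.single ⟨hxy.1, ⟨hxy.2.1, hx⟩, ⟨hxy.2.2, hy⟩⟩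
      · have hyQ : y ∈ Q := by
          have : y ∈ X ∪ Q := hXQ ▸ Set.mem_univ y
          exact this.resolve_left hy
        rcases hno x hx y hyQ hxy.1 with h3 | h3 | h3
        · have e1 : r x = p := by rw [h3]; simp only [r, if_pos hpX]
          have e2 : r y = p := by simp only [r, if_neg hy]
          rw [e1, e2]
        · exact absurd (h3 ▸ hpX) hy
        · exact absurd h3 hy
    · have hxQ : x ∈ Q := by
        have : x ∈ X ∪ Q := hXQ ▸ Set.mem_univ x
        exact this.resolve_left hx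
      by_cases hy : y ∈ X
      · rcases hno y hy x hxQ hxy.1.symm with h3 | h3 | h3
        · have e1 : r y = p := by rw [h3]; simp only [r, if_pos hpX]
          have e2 : r x = p := by simp only [r, if_neg hx]
          rw [e1, e2]
        · exact absurd (h3 ▸ hpX) hx
        · exact absurd h3 hx
      · simp only [r, if_neg hx, if_neg hy]
        exact ReflTransGen.refl
  have h3 := rtg_lift r h2 h1
  simpa only [r, if_pos hu.2, if_pos hv.2] using h3

end

section lemma1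

variable {U : Type} [Finite U]

/-- invariant of the first descent -/
structure Inv1 (B : SimpleGraph U) (X : Set U) (φ : U → U) (p q a b : U)
    (D : Set U) (H : SimpleGraph U) : Prop where
  le : H ≤ B
  supp : ∀ x y, H.Adj x y → x ∈ D
  ab : H.Adj a b
  tc : TC H D
  p : p ∈ D
  q : q ∈ D
  clo : ∀ x ∈ D, x ∈ X → φ x ∈ D
  cloH : ∀ x y, x ∈ X → y ∈ X → H.Adj x y → H.Adj (φ x) (φ y)

theorem descent1 (B : SimpleGraph U) (X Q : Set U)
    (hXQ : X ∪ Q = Set.univ) (p q : U) (hpq : p ≠ q) (hint : X ∩ Q = {p, q})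
    (hno : ∀ x ∈ X, ∀ y ∈ Q, B.Adj x y → x ∈ Q ∨ y ∈ X)
    (hnadj : ¬ B.Adj p q) (a b : U) (haX : a ∈ X) (hbX : b ∈ X)
    (φ : U → U) (hinj : Set.InjOn φ X) (hp : φ p = a) (hq : φ q = b) :
    ∀ n : ℕ, ∀ D : Set U, ∀ H : SimpleGraph U, Inv1 B X φ p q a b D H → D.ncard = n → False := by
  classical
  have hpX : p ∈ X := by
    have : p ∈ X ∩ Q := by rw [hint]; simp
    exact this.1
  have hqX : q ∈ X := by
    have : q ∈ X ∩ Q := by rw [hint]; simp
    exact this.1
  have hnX : ∀ y, y ∉ X → y ∈ Q := by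
    intro y hy
    have : y ∈ X ∪ Q := hXQ ▸ Set.mem_univ y
    exact this.resolve_left hy
  have hcross : ∀ x y, x ∈ X → y ∉ X → B.Adj x y → x = p ∨ x = q := by
    intro x y hx hy hxy
    rcases hno x hx y (hnX y hy) hxy with h | h
    · have : x ∈ X ∩ Q := ⟨hx, h⟩
      rw [hint] at this
      simpa using this
    · exact absurd h hy
  intro n
  induction n using Nat.strong_induction_on with
  | _ n IH =>
    intro D H hI hn
    -- the next stage
    let Z : Set U := D ∩ X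
    let D' : Set U := φ '' Z
    let H' : SimpleGraph U :=
      { Adj := fun u v => (∃ x y, x ∈ Z ∧ y ∈ Z ∧ H.Adj x y ∧ u = φ x ∧ v = φ y) ∨
          (u = a ∧ v = b) ∨ (u = b ∧ v = a)
        symm := ⟨by
          rintro u v (⟨x, y, hx, hy, hxy, rfl, rfl⟩ | ⟨rfl, rfl⟩ | ⟨rfl, rfl⟩)
          · exact Or.inl ⟨y, x, hy, hx, hxy.symm, rfl, rfl⟩
          · exact Or.inr (Or.inr ⟨rfl, rfl⟩)
          · exact Or.inr (Or.inl ⟨rfl, rfl⟩)⟩
        loopless := ⟨by
          rintro u (⟨x, y, hx, hy, hxy, h1, h2⟩ | ⟨h1, h2⟩ | ⟨h1, h2⟩)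
          · have := hinj hx.2 hy.2 (h1.symm.trans h2)
            exact hxy.ne this
          · exact hI.ab.ne (h1.symm.trans h2)
          · exact hI.ab.ne (h2.symm.trans h1)⟩ }
    have hZp : p ∈ Z := ⟨hI.p, hpX⟩
    have hZq : q ∈ Z := ⟨hI.q, hqX⟩
    have hD'D : D' ⊆ D := by
      rintro _ ⟨x, hx, rfl⟩
      exact hI.clo x hx.1 hx.2
    have haD' : a ∈ D' := ⟨p, hZp, hp⟩
    have hbD' : b ∈ D' := ⟨q, hZq, hq⟩
    have hH'H : H' ≤ H := by
      rintro u v (⟨x, y, hx, hy, hxy, rfl, rfl⟩ | ⟨rfl, rfl⟩ | ⟨rfl, rfl⟩)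
      · exact hI.cloH x y hx.2 hy.2 hxy
      · exact hI.ab
      · exact hI.ab.symm
    -- steps of `H` retract to steps of `H'`
    have hret : ∀ (E : Set U) (s : U), (s = p ∨ s = q) → s ∈ E →
        (∀ y, y ∈ E → y = p ∨ y = q → y ∈ X) → E ⊆ D →
        ∀ u ∈ E ∩ X, ∀ v ∈ E ∩ X, Rch H E u v →
          Rch H' (φ '' (E ∩ X)) (φ u) (φ v) := by
      intro E s hs hsE _ hED u hu v hv huv
      have hsX : s ∈ X := by rcases hs with h | h <;> rw [h] <;> assumption
      let r : U → U := fun y => φ (if y ∈ X then y else s)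
      have hstep : ∀ x y, St H E x y → x ∈ X → y ∉ X → Rch H' (φ '' (E ∩ X)) (φ x) (φ s) := by
        intro x y hxy hx hy
        have h1 := hcross x y hx hy (hI.le hxy.1)
        by_cases hxs : x = s
        · rw [hxs]
        · refine ReflTransGen.single ⟨?_, ⟨x, ⟨hxy.2.1, hx⟩, rfl⟩, ⟨s, ⟨hsE, hsX⟩, rfl⟩⟩
          rcases h1 with h1 | h1
          · rcases hs with h2 | h2
            · exact absurd (h1.trans h2.symm) hxs
            · rw [h1, h2, hp, hq]
              exact Or.inr (Or.inl ⟨rfl, rfl⟩)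
          · rcases hs with h2 | h2
            · rw [h1, h2, hp, hq]
              exact Or.inr (Or.inr ⟨rfl, rfl⟩)
            · exact absurd (h1.trans h2.symm) hxs
      have h2 : ∀ x y, St H E x y → Rch H' (φ '' (E ∩ X)) (r x) (r y) := by
        intro x y hxy
        by_cases hx : x ∈ X
        · by_cases hy : y ∈ X
          · simp only [r, if_pos hx, if_pos hy]
            refine ReflTransGen.single ⟨Or.inl ⟨x, y, ⟨hED hxy.2.1, hx⟩, ⟨hED hxy.2.2, hy⟩, hxy.1,
              rfl, rfl⟩, ⟨x, ⟨hxy.2.1, hx⟩, rfl⟩, ⟨y, ⟨hxy.2.2, hy⟩, rfl⟩⟩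
          · simp only [r, if_pos hx, if_neg hy]
            exact hstep x y hxy hx hy
        · by_cases hy : y ∈ X
          · simp only [r, if_pos hy, if_neg hx]
            exact (hstep y x ⟨hxy.1.symm, hxy.2.2, hxy.2.1⟩ hy hx).symm
          · simp only [r, if_neg hx, if_neg hy]
            exact ReflTransGen.refl
      have h3 := rtg_lift r h2 huv
      simpa only [r, if_pos hu.2, if_pos hv.2] using h3
    have hXE : ∀ y : U, y = p ∨ y = q → y ∈ X := by
      rintro y (rfl | rfl) <;> assumption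
    have htc' : TC H' D' := by
      refine ⟨?_, ?_⟩
      · rintro _ ⟨u, hu, rfl⟩ _ ⟨v, hv, rfl⟩
        exact hret D p (Or.inl rfl) hI.p (fun y _ => hXE y) (subset_refl _) u hu v hv
          (hI.tc.1 u hu.1 v hv.1)
      · rintro _ ⟨x, hx, rfl⟩
        rintro _ ⟨⟨u, hu, rfl⟩, hux⟩ _ ⟨⟨v, hv, rfl⟩, hvx⟩
        have hux' : u ≠ x := fun h => hux (by rw [h]; rfl)
        have hvx' : v ≠ x := fun h => hvx (by rw [h]; rfl)
        have hs : ∃ s, (s = p ∨ s = q) ∧ s ∈ D \ {x} := by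
          by_cases h : x = p
          · exact ⟨q, Or.inr rfl, hI.q, fun h' => hpq (h.symm.trans h'.symm)⟩
          · exact ⟨p, Or.inl rfl, hI.p, fun h' => h h'.symm⟩
        obtain ⟨s, hs1, hs2⟩ := hs
        have h1 := hret (D \ {x}) s hs1 hs2 (fun y _ => hXE y) Set.sdiff_subset u
          ⟨⟨hu.1, hux'⟩, hu.2⟩ v ⟨⟨hv.1, hvx'⟩, hv.2⟩
          (hI.tc.2 x hx.1 u ⟨hu.1, hux'⟩ v ⟨hv.1, hvx'⟩)
        refine h1.mono ?_
        rintro _ ⟨y, ⟨⟨hy1, hy2⟩, hy3⟩, rfl⟩
        refine ⟨⟨y, ⟨hy1, hy3⟩, rfl⟩, ?_⟩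
        intro h2
        exact hy2 (hinj hy3 hx.2 h2)
    -- the new set leaves `X`
    have hleave : ∃ z ∈ D', z ∉ X := by
      by_contra hcon
      push Not at hcon
      have hmaps : ∀ x : Z, φ x.1 ∈ Z := by
        intro x
        have h1 : φ x.1 ∈ D' := ⟨x.1, x.2, rfl⟩
        exact ⟨hD'D h1, hcon _ h1⟩
      let ψ : Z → Z := fun x => ⟨φ x.1, hmaps x⟩
      have hψ : Function.Injective ψ := by
        intro x y h
        have h1 : φ x.1 = φ y.1 := congrArg Subtype.val h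
        exact Subtype.ext (hinj x.2.2 y.2.2 h1)
      have hfinZ : Finite Z := inferInstance
      let σ : Equiv.Perm Z := Equiv.ofBijective ψ (Finite.injective_iff_bijective.mp hψ)
      have hσ : ∀ x, σ x = ψ x := fun x => rfl
      have hadj : ∀ k : ℕ, H.Adj ((σ ^ (k + 1)) ⟨p, hZp⟩).1 ((σ ^ (k + 1)) ⟨q, hZq⟩).1 := by
        intro k
        induction k with
        | zero =>
          simp only [zero_add, pow_one, hσ]
          show H.Adj (φ p) (φ q)
          rw [hp, hq]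
          exact hI.ab
        | succ k ih =>
          rw [pow_succ', Equiv.Perm.mul_apply, Equiv.Perm.mul_apply, hσ, hσ]
          exact hI.cloH _ _ (((σ ^ (k + 1)) ⟨p, hZp⟩).2.2) (((σ ^ (k + 1)) ⟨q, hZq⟩).2.2) ih
      have hfinP : Finite (Equiv.Perm Z) := inferInstance
      obtain ⟨k, hk0, hk⟩ := (isOfFinOrder_of_finite σ).exists_pow_eq_one
      have h1 := hadj (k - 1)
      rw [Nat.sub_add_cancel hk0, hk] at h1
      exact hnadj (hI.le h1)
    obtain ⟨z, hzD', hzX⟩ := hleave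
    have hstay : ∀ E : Set U, p ∉ E → q ∉ E → ∀ t, t ∈ X → Rch H' E t z → False := by
      intro E hpE hqE t ht htz
      refine hzX (htz.stay ht ?_)
      intro x y hxy hx _ hxX
      by_contra hyX
      rcases hcross x y hxX hyX (hI.le (hH'H hxy)) with h | h
      · exact hpE (h ▸ hx)
      · exact hqE (h ▸ hx)
    have hpq' : ∀ s t : U, (s = p ∧ t = q) ∨ (s = q ∧ t = p) → s ∈ D' := by
      intro s t hst
      by_contra hs
      have habne : ¬ ((a = p ∨ a = q) ∧ (b = p ∨ b = q)) := by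
        rintro ⟨h1 | h1, h2 | h2⟩
        · exact hI.ab.ne (h1.trans h2.symm)
        · exact hnadj (by rw [← h1, ← h2]; exact hI.le hI.ab)
        · exact hnadj (by rw [← h1, ← h2]; exact (hI.le hI.ab).symm)
        · exact hI.ab.ne (h1.trans h2.symm)
      have hex : ∃ w ∈ D', w ∈ X ∧ w ≠ p ∧ w ≠ q := by
        by_cases h1 : a = p ∨ a = q
        · have h2 : ¬ (b = p ∨ b = q) := fun h2 => habne ⟨h1, h2⟩
          push Not at h2
          exact ⟨b, hbD', hbX, h2.1, h2.2⟩
        · push Not at h1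
          exact ⟨a, haD', haX, h1.1, h1.2⟩
      obtain ⟨w, hwD, hwX, hwp, hwq⟩ := hex
      have hz1 : z ≠ p := fun h => hzX (h ▸ hpX)
      have hz2 : z ≠ q := fun h => hzX (h ▸ hqX)
      have hzt : z ≠ t := by rcases hst with ⟨-, h⟩ | ⟨-, h⟩ <;> rw [h] <;> assumption
      have hwt : w ≠ t := by rcases hst with ⟨-, h⟩ | ⟨-, h⟩ <;> rw [h] <;> assumption
      have hpE : p ∉ D' \ {t} := by
        rcases hst with ⟨h1, h2⟩ | ⟨h1, h2⟩
        · rw [← h1]; exact fun h => hs h.1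
        · rw [← h2]; exact fun h => h.2 rfl
      have hqE : q ∉ D' \ {t} := by
        rcases hst with ⟨h1, h2⟩ | ⟨h1, h2⟩
        · rw [← h2]; exact fun h => h.2 rfl
        · rw [← h1]; exact fun h => hs h.1
      have hcon' : Con H' (D' \ {t}) := by
        by_cases ht : t ∈ D'
        · exact htc'.2 t ht
        · rw [Set.sdiff_singleton_eq_self ht]
          exact htc'.1
      exact hstay (D' \ {t}) hpE hqE w hwX (hcon' w ⟨hwD, hwt⟩ z ⟨hzD', hzt⟩)
    have hI' : Inv1 B X φ p q a b D' H' := by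
      refine ⟨hH'H.trans hI.le, ?_, Or.inr (Or.inl ⟨rfl, rfl⟩), htc',
        hpq' p q (Or.inl ⟨rfl, rfl⟩), hpq' q p (Or.inr ⟨rfl, rfl⟩), ?_, ?_⟩
      · rintro u v (⟨x, y, hx, hy, hxy, rfl, rfl⟩ | ⟨rfl, rfl⟩ | ⟨rfl, rfl⟩)
        · exact ⟨x, hx, rfl⟩
        · exact haD'
        · exact hbD'
      · intro x hx hxX
        exact ⟨x, ⟨hD'D hx, hxX⟩, rfl⟩
      · intro x y hx hy hxy
        have h1 := hH'H hxy
        exact Or.inl ⟨x, y, ⟨hI.supp x y h1, hx⟩, ⟨hI.supp y x h1.symm, hy⟩, h1, rfl, rfl⟩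
    have hlt : D'.ncard < n := by
      rw [← hn]
      have h1 : D'.ncard ≤ Z.ncard := Set.ncard_image_le (Set.toFinite _)
      have h2 : Z.ncard < D.ncard := by
        apply Set.ncard_lt_ncard _ (Set.toFinite _)
        refine ⟨Set.inter_subset_left, fun h => hzX (h (hD'D hzD')).2⟩
      omega
    exact IH _ hlt D' H' hI' rfl

/-- **Lemma 1.** A two-connected graph `B` with an edge `ab`: a side `X` (containing `a`, `b`) of a
2-separation with non-adjacent terminals `p, q` cannot be mapped injectively into `B` with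
`p, q` going to `a, b`. -/
theorem lemma1 (B : SimpleGraph U) (hB : TC B Set.univ) (X Q : Set U)
    (hXQ : X ∪ Q = Set.univ) (p q : U) (hpq : p ≠ q) (hint : X ∩ Q = {p, q})
    (hno : ∀ x ∈ X, ∀ y ∈ Q, B.Adj x y → x ∈ Q ∨ y ∈ X)
    (hnadj : ¬ B.Adj p q) (a b : U) (hab : B.Adj a b) (haX : a ∈ X) (hbX : b ∈ X)
    (φ : U → U) (hinj : Set.InjOn φ X)
    (hhom : ∀ x y, x ∈ X → y ∈ X → B.Adj x y → B.Adj (φ x) (φ y))
    (hp : φ p = a) (hq : φ q = b) : False := by
  refine descent1 B X Q hXQ p q hpq hint hno hnadj a b haX hbX φ hinj hp hq _ Set.univ B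
    ⟨le_refl _, fun _ _ _ => Set.mem_univ _, hab, hB, Set.mem_univ _, Set.mem_univ _,
      fun _ _ _ => Set.mem_univ _, fun x y hx hy h => hhom x y hx hy h⟩ rfl

end lemma1

end Pool.Agent.R68.Wov
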