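import Mathlib
import Pool.Agent.R68.Woven.TC

/-!
# The second descent lemma (helper68)
-/

set_option autoImplicit false

namespace Pool.Agent.R68.Wov

open Relation

section

variable {V U : Type}

/-- the copies of `B` in `G` with all vertices in `D` -/
def cps (B : SimpleGraph U) (G : SimpleGraph V) (D : Set V) : Set (U → V) :=
  {β | IsCopy B G β ∧ ∀ u, β u ∈ D}

lemma tc_range {B : SimpleGraph U} {G : SimpleGraph V} (hB : TC B Set.univ) {β : U → V}
    (hβ : IsCopy B G β) : TC G (Set.range β) := by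
  rw [← Set.image_univ]
  exact hB.image β (hβ.1.injOn) (fun x y h _ _ => hβ.2 x y h)

lemma TC.del {G : SimpleGraph V} {S : Set V} (hS : TC G S) (x : V) : Con G (S \ {x}) := by
  by_cases hx : x ∈ S
  · exact hS.2 x hx
  · rw [Set.sdiff_singleton_eq_self hx]
    exact hS.1

/-- a set without cut vertex lies on one side of a cut vertex -/
lemma TC.side {G : SimpleGraph V} {S X Q : Set V} (hS : TC G S) (p : V)
    (hXQ : X ∪ Q = Set.univ) (hint : X ∩ Q = {p})
    (hno : ∀ x ∈ X, ∀ y ∈ Q, G.Adj x y → x = p ∨ y = p) {z : V} (hz : z ∈ S) (hzX : z ∉ X) :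
    S ⊆ Q := by
  have hp : p ∈ X ∩ Q := by rw [hint]; rfl
  intro t ht
  by_contra htQ
  have hcover : ∀ y, y ∈ X ∨ y ∈ Q := fun y => by
    have : y ∈ X ∪ Q := hXQ ▸ Set.mem_univ y
    exact this
  have hzQ : z ∈ Q := (hcover z).resolve_left hzX
  have hzp : z ≠ p := fun h => hzX (h ▸ hp.1)
  have htp : t ≠ p := fun h => htQ (h ▸ hp.2)
  have h1 := hS.del p z ⟨hz, hzp⟩ t ⟨ht, htp⟩
  have h2 : t ∈ Q := by
    refine h1.stay hzQ ?_
    intro x y hxy hx hy hxQ
    by_contra hyQ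
    have hyX : y ∈ X := (hcover y).resolve_right hyQ
    rcases hno y hyX x hxQ hxy.symm with h | h
    · exact hy.2 h
    · exact hx.2 h
  exact htQ h2

variable [Finite V] [Finite U]

/-- invariant of the second descent -/
structure Inv2 (B : SimpleGraph U) (G : SimpleGraph V) (X : Set V) (φ : V → V) (p : V)
    (S : Set V) (D : Set V) : Prop where
  con : Con G D
  pm : p ∈ D
  sub : S ⊆ D
  clo : ∀ x ∈ D, x ∈ X → φ x ∈ D
  cnt : (cps B G (D ∩ X)).ncard + (cps B G S).ncard ≤ (cps B G D).ncard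

lemma count_step (B : SimpleGraph U) (G : SimpleGraph V) (hU : 3 ≤ Nat.card U)
    (X : Set V) (φ : V → V) (hinj : Set.InjOn φ X)
    (hhom : ∀ x y, x ∈ X → y ∈ X → G.Adj x y → G.Adj (φ x) (φ y))
    (S : Set V) (c : V) (hφS : ∀ x ∈ X, φ x ∈ S → φ x = c) (D : Set V) :
    (cps B G (D ∩ X)).ncard + (cps B G S).ncard ≤
      (cps B G (φ '' (D ∩ X) ∪ S)).ncard := by
  have h1 : ((fun β : U → V => φ ∘ β) '' cps B G (D ∩ X)).ncard = (cps B G (D ∩ X)).ncard := by
    apply Set.InjOn.ncard_image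
    intro β hβ γ hγ h
    funext u
    exact hinj (hβ.2 u).2 (hγ.2 u).2 (congrFun h u)
  have h2 : Disjoint ((fun β : U → V => φ ∘ β) '' cps B G (D ∩ X)) (cps B G S) := by
    rw [Set.disjoint_left]
    rintro _ ⟨β, hβ, rfl⟩ hγ
    have hfin : Nat.card U ≤ 1 := by
      have : Subsingleton U := ⟨fun u v => by
        have e1 := hφS (β u) (hβ.2 u).2 (hγ.2 u)
        have e2 := hφS (β v) (hβ.2 v).2 (hγ.2 v)
        exact hβ.1.1 (hinj (hβ.2 u).2 (hβ.2 v).2 (e1.trans e2.symm))⟩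
      exact Finite.card_le_one_iff_subsingleton.mpr this
    omega
  rw [← h1, ← Set.ncard_union_eq h2 (Set.toFinite _) (Set.toFinite _)]
  apply Set.ncard_le_ncard _ (Set.toFinite _)
  rintro γ (⟨β, hβ, rfl⟩ | hγ)
  · refine ⟨⟨fun u v h => hβ.1.1 (hinj (hβ.2 u).2 (hβ.2 v).2 h), fun x y h =>
      hhom _ _ (hβ.2 x).2 (hβ.2 y).2 (hβ.1.2 x y h)⟩, fun u => Or.inl ⟨β u, hβ.2 u, rfl⟩⟩
  · exact ⟨hγ.1, fun u => Or.inr (hγ.2 u)⟩

theorem descent2 (B : SimpleGraph U) (hB : TC B Set.univ) (hU : 3 ≤ Nat.card U)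
    (G : SimpleGraph V) (X Q : Set V) (hXQ : X ∪ Q = Set.univ) (p : V) (hint : X ∩ Q = {p})
    (hno : ∀ x ∈ X, ∀ y ∈ Q, G.Adj x y → x = p ∨ y = p)
    (hQ : ∀ β ∈ cps B G Q, ∀ u, β u ≠ p)
    (φ : V → V) (hinj : Set.InjOn φ X)
    (hhom : ∀ x y, x ∈ X → y ∈ X → G.Adj x y → G.Adj (φ x) (φ y))
    (β0 : U → V) (hβ0 : IsCopy B G β0) (hβ0X : ∀ u, β0 u ∈ X) (c : V) (hc : c ∈ Set.range β0)
    (hp : φ p = c) (hφS : ∀ x ∈ X, φ x ∈ Set.range β0 → φ x = c) :
    ∀ n : ℕ, ∀ D : Set V, Inv2 B G X φ p (Set.range β0) D → D.ncard = n → False := by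
  classical
  have hpXQ : p ∈ X ∩ Q := by rw [hint]; rfl
  have hα : 0 < (cps B G (Set.range β0)).ncard := by
    rw [Set.ncard_pos (Set.toFinite _)]
    exact ⟨β0, hβ0, fun u => ⟨u, rfl⟩⟩
  have hcardU : ∀ β : U → V, Function.Injective β → (Set.range β).ncard = Nat.card U := by
    intro β hβ
    rw [← Set.image_univ, Set.ncard_image_of_injective _ hβ, Set.ncard_univ]
  intro n
  induction n using Nat.strong_induction_on with
  | _ n IH =>
    intro D hI hn
    -- a copy in `Q`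
    have hcopy : ∀ E : Set V, (cps B G (E ∩ X)).ncard + (cps B G (Set.range β0)).ncard ≤
        (cps B G E).ncard → ∃ β ∈ cps B G E, Set.range β ⊆ Q ∧ p ∉ Set.range β := by
      intro E hE
      have h1 : ∃ β ∈ cps B G E, β ∉ cps B G (E ∩ X) := by
        by_contra hcon
        push Not at hcon
        have := Set.ncard_le_ncard (show cps B G E ⊆ cps B G (E ∩ X) from hcon) (Set.toFinite _)
        omega
      obtain ⟨β, hβ, hβ'⟩ := h1
      have h2 : ∃ u, β u ∉ X := by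
        by_contra hcon
        push Not at hcon
        exact hβ' ⟨hβ.1, fun u => ⟨hβ.2 u, hcon u⟩⟩
      obtain ⟨u, hu⟩ := h2
      have h3 : Set.range β ⊆ Q := (tc_range hB hβ.1).side p hXQ hint hno ⟨u, rfl⟩ hu
      refine ⟨β, hβ, h3, ?_⟩
      rintro ⟨v, hv⟩
      exact hQ β ⟨hβ.1, fun u => h3 ⟨u, rfl⟩⟩ v hv
    obtain ⟨β1, hβ1, hβ1Q, hβ1p⟩ := hcopy D hI.cnt
    let D' : Set V := φ '' (D ∩ X) ∪ Set.range β0
    have hD'D : D' ⊆ D := by
      rintro _ (⟨x, hx, rfl⟩ | hx)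
      · exact hI.clo x hx.1 hx.2
      · exact hI.sub hx
    have hcnt' : (cps B G (D' ∩ X)).ncard + (cps B G (Set.range β0)).ncard ≤
        (cps B G D').ncard := by
      have h1 := count_step B G hU X φ hinj hhom (Set.range β0) c hφS D
      have h2 : (cps B G (D' ∩ X)).ncard ≤ (cps B G (D ∩ X)).ncard := by
        apply Set.ncard_le_ncard _ (Set.toFinite _)
        intro β hβ
        exact ⟨hβ.1, fun u => ⟨hD'D (hβ.2 u).1, (hβ.2 u).2⟩⟩
      exact (Nat.add_le_add_right h2 _).trans h1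
    have hcD' : c ∈ φ '' (D ∩ X) := ⟨p, ⟨hI.pm, hpXQ.1⟩, hp⟩
    have hcon' : Con G D' := by
      refine Con.union (Con.image (hI.con.cut (Q := Q) p hI.pm hpXQ.1 hXQ ?_) φ ?_)
        (tc_range hB hβ0).1 c hcD' hc
      · intro x hx y hy hxy
        rcases hno x hx y hy hxy with h | h
        · exact Or.inl h
        · exact Or.inr (Or.inl h)
      · intro x y hxy hx hy
        exact hhom x y hx.2 hy.2 hxy
    obtain ⟨β2, hβ2, hβ2Q, hβ2p⟩ := hcopy D' hcnt'
    have hpD' : p ∈ D' := by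
      by_contra hpD'
      -- a vertex of `β0` other than `p`
      have hU1 : 1 < Nat.card U := by omega
      have : Nontrivial U := Finite.one_lt_card_iff_nontrivial.mp hU1
      obtain ⟨u, v, huv⟩ := exists_pair_ne U
      have h1 := hcon' (β0 u) (Or.inr ⟨u, rfl⟩) (β2 u) (hβ2.2 u)
      have h2 : β2 u ∈ X := by
        refine h1.stay (hβ0X u) ?_
        intro x y hxy hx hy hxX
        by_contra hyX
        have hyQ : y ∈ Q := by
          have : y ∈ X ∪ Q := hXQ ▸ Set.mem_univ y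
          exact this.resolve_left hyX
        rcases hno x hxX y hyQ hxy with h | h
        · exact hpD' (h ▸ hx)
        · exact hpD' (h ▸ hy)
      have h3 : β2 u ∈ X ∩ Q := ⟨h2, hβ2Q ⟨u, rfl⟩⟩
      rw [hint] at h3
      exact hβ2p ⟨u, h3⟩
    have hlt : D'.ncard < n := by
      rw [← hn]
      have h1 : D' = φ '' (D ∩ X) ∪ (Set.range β0 \ {c}) := by
        ext z
        constructor
        · rintro (h | h)
          · exact Or.inl h
          · by_cases hz : z = c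
            · rw [hz]; exact Or.inl hcD'
            · exact Or.inr ⟨h, hz⟩
        · rintro (h | h)
          · exact Or.inl h
          · exact Or.inr h.1
      have h2 : D'.ncard ≤ (D ∩ X).ncard + (Nat.card U - 1) := by
        rw [h1]
        refine (Set.ncard_union_le _ _).trans (Nat.add_le_add (Set.ncard_image_le (Set.toFinite _)) ?_)
        rw [Set.ncard_sdiff_singleton_of_mem hc, hcardU β0 hβ0.1]
      have h3 : (D ∩ X).ncard + Nat.card U ≤ D.ncard := by
        have h4 : Disjoint (D ∩ X) (Set.range β1) := by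
          rw [Set.disjoint_left]
          rintro z hz ⟨u, rfl⟩
          have h5 : β1 u ∈ X ∩ Q := ⟨hz.2, hβ1Q ⟨u, rfl⟩⟩
          rw [hint] at h5
          exact hβ1p ⟨u, h5⟩
        rw [← hcardU β1 hβ1.1.1, ← Set.ncard_union_eq h4 (Set.toFinite _) (Set.toFinite _)]
        apply Set.ncard_le_ncard _ (Set.toFinite _)
        rintro z (hz | ⟨u, rfl⟩)
        · exact hz.1
        · exact hβ1.2 u
      omega
    refine IH _ hlt D' ⟨hcon', hpD', fun z hz => Or.inr hz, ?_, hcnt'⟩ rfl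
    intro x hx hxX
    exact Or.inl ⟨x, ⟨hD'D hx, hxX⟩, rfl⟩

/-- **Lemma 2.** -/
theorem lemma2 (B : SimpleGraph U) (hB : TC B Set.univ) (hU : 3 ≤ Nat.card U)
    (G : SimpleGraph V) (hG : Con G Set.univ)
    (X Q : Set V) (hXQ : X ∪ Q = Set.univ) (p : V) (hint : X ∩ Q = {p})
    (hno : ∀ x ∈ X, ∀ y ∈ Q, G.Adj x y → x = p ∨ y = p)
    (hQ : ∀ β ∈ cps B G Q, ∀ u, β u ≠ p)
    (φ : V → V) (hinj : Set.InjOn φ X)
    (hhom : ∀ x y, x ∈ X → y ∈ X → G.Adj x y → G.Adj (φ x) (φ y))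
    (β0 : U → V) (hβ0 : IsCopy B G β0) (hβ0X : ∀ u, β0 u ∈ X) (c : V) (hc : c ∈ Set.range β0)
    (hp : φ p = c) (hφS : ∀ x ∈ X, φ x ∈ Set.range β0 → φ x = c) : False := by
  refine descent2 B hB hU G X Q hXQ p hint hno hQ φ hinj hhom β0 hβ0 hβ0X c hc hp hφS _ Set.univ
    ⟨hG, Set.mem_univ _, Set.subset_univ _, fun _ _ _ => Set.mem_univ _, ?_⟩ rfl
  refine (count_step B G hU X φ hinj hhom (Set.range β0) c hφS Set.univ).trans ?_
  apply Set.ncard_le_ncard _ (Set.toFinite _)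
  intro β hβ
  exact ⟨hβ.1, fun _ => Set.mem_univ _⟩

end

end Pool.Agent.R68.Wov
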