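import Mathlib
import Pool.Agent.R68.Woven.Desc

/-!
# Blocks: ear lemma, gates, end members (helper68)
-/

set_option autoImplicit false

namespace Pool.Agent.R68.Wov

open Relation

section

variable {V : Type}

lemma Con.union_adj {G : SimpleGraph V} {D D' : Set V} (h : Con G D) (h' : Con G D') (c d : V)
    (hc : c ∈ D) (hd : d ∈ D') (hcd : G.Adj c d) : Con G (D ∪ D') := by
  have key : ∀ u ∈ D ∪ D', Rch G (D ∪ D') u c := by
    rintro u (hu | hu)
    · exact (h u hu c hc).mono Set.subset_union_left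
    · exact ((h' u hu d hd).mono Set.subset_union_right).trans
        (ReflTransGen.single ⟨hcd.symm, Or.inr hd, Or.inl hc⟩)
  intro u hu v hv
  exact (key u hu).trans (key v hv).symm

/-- the component of `z` in `Z - w` -/
def cmp (G : SimpleGraph V) (Z : Set V) (w z : V) : Set V := {y | Rch G (Z \ {w}) z y}

lemma cmp_sub {G : SimpleGraph V} {Z : Set V} {w z : V} (hz : z ∈ Z) (hzw : z ≠ w) :
    cmp G Z w z ⊆ Z \ {w} := by
  intro y hy
  exact Rch.stay (show Rch G (Z \ {w}) z y from hy) ⟨hz, hzw⟩ (fun _ _ _ _ hy _ => hy)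

/-- deleting a component of `Z - w` from a connected set `Z` -/
lemma cmp_del {G : SimpleGraph V} {Z : Set V} (hZ : Con G Z) {w z : V} (hw : w ∈ Z) (hz : z ∈ Z)
    (hzw : z ≠ w) : Con G (Z \ cmp G Z w z) := by
  have hwn : w ∉ cmp G Z w z := fun h => (cmp_sub hz hzw h).2 rfl
  have key : ∀ a ∈ Z, a ∈ cmp G Z w z ∨ Rch G (Z \ cmp G Z w z) a w := by
    intro a ha
    refine (hZ w hw a ha).stay (A := {a | a ∈ cmp G Z w z ∨ Rch G (Z \ cmp G Z w z) a w})
      (Or.inr ReflTransGen.refl) ?_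
    intro x y hxy hx hy hxA
    by_cases hyW : y ∈ cmp G Z w z
    · exact Or.inl hyW
    · right
      by_cases hyw : y = w
      · rw [hyw]
      · rcases hxA with hxW | hxR
        · exfalso
          apply hyW
          exact ReflTransGen.tail hxW ⟨hxy, cmp_sub hz hzw hxW, hy, hyw⟩
        · by_cases hxW : x ∈ cmp G Z w z
          · exfalso
            apply hyW
            exact ReflTransGen.tail hxW ⟨hxy, cmp_sub hz hzw hxW, hy, hyw⟩
          · exact ReflTransGen.head ⟨hxy.symm, ⟨hy, hyW⟩, ⟨hx, hxW⟩⟩ hxR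
  have key' : ∀ a ∈ Z \ cmp G Z w z, Rch G (Z \ cmp G Z w z) a w := fun a ha =>
    (key a ha.1).resolve_left ha.2
  intro a ha b hb
  exact (key' a ha).trans (key' b hb).symm

variable [Finite V]

/-- from a non-bridge edge to a set without cut vertex -/
lemma exists_tc (G : SimpleGraph V) (G' : SimpleGraph V) (hle : G' ≤ G) (x y : V)
    (hxy : G.Adj x y) (hxy' : ¬ G'.Adj x y) (h : Rch G' Set.univ x y) :
    ∃ D : Set V, TC G D ∧ 3 ≤ D.ncard := by
  classical
  -- a minimal connected set containing x and y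
  have hne : {D : Set V | Con G' D ∧ x ∈ D ∧ y ∈ D}.Nonempty := by
    refine ⟨{z | Rch G' Set.univ x z}, ?_, ReflTransGen.refl, h⟩
    have key : ∀ z, Rch G' Set.univ x z → Rch G' {z | Rch G' Set.univ x z} x z := by
      intro z hz
      induction hz with
      | refl => exact ReflTransGen.refl
      | tail h1 h2 ih =>
        exact ih.tail ⟨h2.1, h1, h1.tail h2⟩
    intro u hu v hv
    exact (key u hu).symm.trans (key v hv)
  obtain ⟨D, ⟨hD, hxD, hyD⟩, hmin⟩ := Set.exists_min_image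
    {D : Set V | Con G' D ∧ x ∈ D ∧ y ∈ D} Set.ncard (Set.toFinite _) hne
  have hGG : ∀ {E : Set V} {u v : V}, Rch G' E u v → Rch G E u v := by
    intro E u v huv
    exact rtg_lift (fun z => z) (fun a b hab => ReflTransGen.single ⟨hle hab.1, hab.2⟩) huv
  have hcmp : ∀ w ∈ D, ∀ z ∈ D, z ≠ w → x ∈ cmp G' D w z ∨ y ∈ cmp G' D w z := by
    intro w hw z hz hzw
    by_contra hcon
    push Not at hcon
    have h1 := hmin (D \ cmp G' D w z) ⟨cmp_del hD hw hz hzw, ⟨hxD, hcon.1⟩, ⟨hyD, hcon.2⟩⟩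
    have h2 : (D \ cmp G' D w z).ncard < D.ncard := by
      apply Set.ncard_lt_ncard _ (Set.toFinite _)
      refine ⟨Set.sdiff_subset, fun h => ?_⟩
      exact (h hz).2 ReflTransGen.refl
    omega
  refine ⟨D, ⟨fun u hu v hv => hGG (hD u hu v hv), ?_⟩, ?_⟩
  · intro w hw
    -- everything is connected to a base point
    have hbase : ∃ s ∈ D \ {w}, ∀ z ∈ D \ {w}, Rch G (D \ {w}) z s := by
      by_cases hwx : w = x
      · refine ⟨y, ⟨hyD, ?_⟩, ?_⟩
        · rw [hwx]; exact fun h => hxy.ne h.symm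
        · intro z hz
          rcases hcmp w hw z hz.1 hz.2 with h1 | h1
          · exact absurd hwx.symm (cmp_sub hz.1 hz.2 h1).2
          · exact hGG h1
      · refine ⟨x, ⟨hxD, fun h => hwx h.symm⟩, ?_⟩
        intro z hz
        rcases hcmp w hw z hz.1 hz.2 with h1 | h1
        · exact hGG h1
        · refine (hGG h1).tail ⟨hxy.symm, cmp_sub hz.1 hz.2 h1, hxD, fun h => hwx h.symm⟩
    obtain ⟨s, hs, hs'⟩ := hbase
    intro u hu v hv
    exact (hs' u hu).trans (hs' v hv).symm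
  · by_contra hlt
    push Not at hlt
    have h2 : ({x, y} : Set V).ncard = 2 := Set.ncard_pair hxy.ne
    have h3 : ({x, y} : Set V) ⊆ D := by
      rintro z (rfl | rfl) <;> assumption
    have h4 : ({x, y} : Set V) = D := by
      apply Set.eq_of_subset_of_ncard_le h3 (by omega) (Set.toFinite _)
    have h5 := hD x hxD y hyD
    rw [← h4] at h5
    have h6 : y ∈ ({x} : Set V) := by
      refine h5.stay rfl ?_
      intro u v huv hu hv hux
      rw [Set.mem_singleton_iff] at hux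
      rcases hv with hv | hv
      · exact hv
      · rw [Set.mem_singleton_iff] at hv
        rw [hux, hv] at huv
        exact absurd huv hxy'
    exact hxy.ne h6.symm

/-- `S` is a largest set without cut vertex -/
structure Blk (G : SimpleGraph V) (S : Set V) : Prop where
  tc : TC G S
  three : 3 ≤ S.ncard
  max : ∀ D, TC G D → D.ncard ≤ S.ncard

lemma Blk.sub {G : SimpleGraph V} {S : Set V} (h : Blk G S) {D : Set V} (hD : TC G D) (c d : V)
    (hcd : c ≠ d) (hc : c ∈ S) (hc' : c ∈ D) (hd : d ∈ S) (hd' : d ∈ D) : D ⊆ S := by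
  have h1 := h.max _ (h.tc.union hD c d hcd hc hc' hd hd')
  have h2 : S = S ∪ D := Set.eq_of_subset_of_ncard_le Set.subset_union_left h1 (Set.toFinite _)
  rw [h2]
  exact Set.subset_union_right

/-- ear lemma -/
lemma Blk.ear {G : SimpleGraph V} {S : Set V} (h : Blk G S) (u v x y : V) (hu : u ∈ S) (hv : v ∈ S)
    (huv : u ≠ v) (hx : x ∉ S) (hux : G.Adj u x) (hvy : G.Adj v y)
    (hxy : Rch G Sᶜ x y) : False := by
  classical
  have hyS : y ∉ S := by
    have : y ∈ Sᶜ := hxy.stay hx (fun _ _ _ _ hy _ => hy)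
    exact this
  have hne : {Z : Set V | Con G Z ∧ Z ⊆ Sᶜ ∧ (∃ x ∈ Z, G.Adj u x) ∧
      (∃ y ∈ Z, G.Adj v y)}.Nonempty := by
    refine ⟨{z | Rch G Sᶜ x z}, ?_, ?_, ⟨x, ReflTransGen.refl, hux⟩, ⟨y, hxy, hvy⟩⟩
    · have key : ∀ z, Rch G Sᶜ x z → Rch G {z | Rch G Sᶜ x z} x z := by
        intro z hz
        induction hz with
        | refl => exact ReflTransGen.refl
        | tail h1 h2 ih =>
          exact ih.tail ⟨h2.1, h1, h1.tail h2⟩
      intro u hu v hv
      exact (key u hu).symm.trans (key v hv)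
    · intro z hz
      exact Rch.stay (show Rch G Sᶜ x z from hz) hx (fun _ _ _ _ hy _ => hy)
  obtain ⟨Z, ⟨hZ, hZS, ⟨x1, hx1, hux1⟩, ⟨y1, hy1, hvy1⟩⟩, hmin⟩ := Set.exists_min_image _ Set.ncard
    (Set.toFinite _) hne
  have hcmp : ∀ w ∈ Z, ∀ z ∈ Z, z ≠ w → ∃ t ∈ cmp G Z w z, ∃ s ∈ S, G.Adj s t := by
    intro w hw z hz hzw
    by_contra hcon
    push Not at hcon
    have h1 := hmin (Z \ cmp G Z w z) ⟨cmp_del hZ hw hz hzw,
      fun t ht => hZS ht.1, ⟨x1, ⟨hx1, fun h => hcon x1 h u hu hux1⟩, hux1⟩,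
      ⟨y1, ⟨hy1, fun h => hcon y1 h v hv hvy1⟩, hvy1⟩⟩
    have h2 : (Z \ cmp G Z w z).ncard < Z.ncard := by
      apply Set.ncard_lt_ncard _ (Set.toFinite _)
      refine ⟨Set.sdiff_subset, fun h => ?_⟩
      exact (h hz).2 ReflTransGen.refl
    omega
  have htc : TC G (S ∪ Z) := by
    refine ⟨h.tc.1.union_adj hZ u x1 hu hx1 hux1, ?_⟩
    rintro w (hw | hw)
    · have h1 : (S ∪ Z) \ {w} = (S \ {w}) ∪ Z := by
        ext t
        constructor
        · rintro ⟨ht | ht, htw⟩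
          · exact Or.inl ⟨ht, htw⟩
          · exact Or.inr ht
        · rintro (⟨ht, htw⟩ | ht)
          · exact ⟨Or.inl ht, htw⟩
          · refine ⟨Or.inr ht, ?_⟩
            rintro rfl
            exact hZS ht hw
      rw [h1]
      by_cases hwu : w = u
      · exact (h.tc.2 w hw).union_adj hZ v y1 ⟨hv, fun h' => huv (hwu.symm.trans h'.symm)⟩ hy1 hvy1
      · exact (h.tc.2 w hw).union_adj hZ u x1 ⟨hu, fun h' => hwu h'.symm⟩ hx1 hux1
    · have hwS : w ∉ S := hZS hw
      have key : ∀ z ∈ (S ∪ Z) \ {w}, Rch G ((S ∪ Z) \ {w}) z u := by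
        have hSsub : S ⊆ (S ∪ Z) \ {w} := fun s hs => ⟨Or.inl hs, fun h' => hwS (h' ▸ hs)⟩
        rintro z ⟨hz | hz, hzw⟩
        · exact (h.tc.1 z hz u hu).mono hSsub
        · obtain ⟨t, ht, s, hs, hst⟩ := hcmp w hw z hz hzw
          have h1 : Rch G ((S ∪ Z) \ {w}) z t :=
            Rch.mono (D := Z \ {w}) (D' := (S ∪ Z) \ {w}) (fun a ha => ⟨Or.inr ha.1, ha.2⟩) ht
          have h2 := cmp_sub hz hzw ht
          have h3 : Rch G ((S ∪ Z) \ {w}) z s :=
            ReflTransGen.tail h1 ⟨hst.symm, ⟨Or.inr h2.1, h2.2⟩, hSsub hs⟩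
          exact h3.trans ((h.tc.1 s hs u hu).mono hSsub)
      intro a ha b hb
      exact (key a ha).trans (key b hb).symm
  have h1 := h.max _ htc
  have h2 : S = S ∪ Z := Set.eq_of_subset_of_ncard_le Set.subset_union_left h1 (Set.toFinite _)
  have h3 : x1 ∈ S := by
    rw [h2]
    exact Or.inr hx1
  exact hZS hx1 h3

/-- the part of the graph attached to `S` at `c` -/
def Hg (G : SimpleGraph V) (S : Set V) (c : V) : Set V :=
  {y | ReflTransGen (fun u v => G.Adj u v ∧ u ∉ S) y c}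

omit [Finite V] in
lemma Hg_self (G : SimpleGraph V) (S : Set V) (c : V) : c ∈ Hg G S c := ReflTransGen.refl

omit [Finite V] in
lemma Hg_mem {G : SimpleGraph V} {S : Set V} {c y : V} (hy : y ∈ Hg G S c) (hyS : y ∈ S) :
    y = c := by
  rcases ReflTransGen.cases_head hy with h | ⟨z, hz, -⟩
  · exact h
  · exact absurd hyS hz.2

omit [Finite V] in
lemma Hg_cover {G : SimpleGraph V} {S : Set V} (hG : Con G Set.univ) (hS : S.Nonempty) (y : V) :
    ∃ c ∈ S, y ∈ Hg G S c := by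
  obtain ⟨s, hs⟩ := hS
  have h := hG y (Set.mem_univ _) s (Set.mem_univ _)
  induction h using ReflTransGen.head_induction_on with
  | refl => exact ⟨s, hs, ReflTransGen.refl⟩
  | @head a b h1 _ ih =>
    by_cases ha : a ∈ S
    · exact ⟨a, ha, ReflTransGen.refl⟩
    · obtain ⟨c, hc, hbc⟩ := ih
      exact ⟨c, hc, ReflTransGen.head ⟨h1.1, ha⟩ hbc⟩

omit [Finite V] in
lemma Hg_last {G : SimpleGraph V} {S : Set V} {c y : V} (hy : y ∈ Hg G S c) (hyS : y ∉ S)
    (hc : c ∈ S) : ∃ x, x ∉ S ∧ Rch G Sᶜ y x ∧ G.Adj x c := by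
  have hy' : ReflTransGen (fun u v => G.Adj u v ∧ u ∉ S) y c := hy
  induction hy' using ReflTransGen.head_induction_on with
  | refl => exact absurd hc hyS
  | @head a b h1 h2 ih =>
    by_cases hb : b ∈ S
    · have : b = c := Hg_mem h2 hb
      subst this
      exact ⟨a, h1.2, ReflTransGen.refl, h1.1⟩
    · obtain ⟨x, hx, hbx, hxc⟩ := ih h2 hb
      exact ⟨x, hx, ReflTransGen.head ⟨h1.1, h1.2, hb⟩ hbx, hxc⟩

lemma Hg_unique {G : SimpleGraph V} {S : Set V} (hS : Blk G S) {c c' y : V} (hc : c ∈ S)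
    (hc' : c' ∈ S) (hy : y ∈ Hg G S c) (hy' : y ∈ Hg G S c') : c = c' := by
  by_cases hyS : y ∈ S
  · rw [← Hg_mem hy hyS, ← Hg_mem hy' hyS]
  · by_contra hne
    obtain ⟨x, hx, hyx, hxc⟩ := Hg_last hy hyS hc
    obtain ⟨x', hx', hyx', hxc'⟩ := Hg_last hy' hyS hc'
    exact hS.ear c c' x x' hc hc' hne hx hxc.symm hxc'.symm (hyx.symm.trans hyx')

lemma Hg_edge {G : SimpleGraph V} {S : Set V} (hS : Blk G S) {c x y : V} (hc : c ∈ S)
    (hx : x ∈ Hg G S c) (hxy : G.Adj x y) (hxc : x ≠ c) : y ∈ Hg G S c := by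
  have hxS : x ∉ S := fun h => hxc (Hg_mem hx h)
  by_cases hyS : y ∈ S
  · have h1 : x ∈ Hg G S y := ReflTransGen.single ⟨hxy, hxS⟩
    have h2 := Hg_unique hS hc hyS hx h1
    rw [h2]
    exact Hg_self G S y
  · exact ReflTransGen.head ⟨hxy.symm, hyS⟩ hx

end

end Pool.Agent.R68.Wov
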