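import Mathlib
import Pool.Agent.R68.Woven.Defs

/-!
# Woven graphs: the gluing criterion (helper68)
-/

set_option autoImplicit false

namespace Pool.Agent.R68.Wov

open Finset

section

variable {V : Type}

/-- vertices of the graph obtained by gluing `M + 1` copies of `G` along `K` -/
def GV (V : Type) (M : ℕ) (K : Set V) : Type := {p : Fin (M + 1) × V // p.2 ∈ K → p.1 = 0}

/-- the glued graph -/
def GG (G : SimpleGraph V) (M : ℕ) (K : Set V) : SimpleGraph (GV V M K) where
  Adj x y := G.Adj x.1.2 y.1.2 ∧ (x.1.2 ∈ K ∨ y.1.2 ∈ K ∨ x.1.1 = y.1.1)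
  symm := ⟨fun x y h => ⟨h.1.symm, by
    rcases h.2 with h | h | h
    · exact Or.inr (Or.inl h)
    · exact Or.inl h
    · exact Or.inr (Or.inr h.symm)⟩⟩
  loopless := ⟨fun x h => G.loopless.irrefl _ h.1⟩

open Classical in
/-- the `j`-th canonical copy -/
noncomputable def cop (M : ℕ) (K : Set V) (j : Fin (M + 1)) (x : V) : GV V M K :=
  ⟨(if x ∈ K then 0 else j, x), fun h => by simp only [if_pos h]⟩

lemma cop_copy (G : SimpleGraph V) (M : ℕ) (K : Set V) (j : Fin (M + 1)) :
    IsCopy G (GG G M K) (cop M K j) := by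
  constructor
  · intro x y h
    have := congrArg (fun z => z.1.2) h
    exact this
  · intro x y h
    refine ⟨h, ?_⟩
    by_cases hx : x ∈ K
    · exact Or.inl hx
    · by_cases hy : y ∈ K
      · exact Or.inr (Or.inl hy)
      · refine Or.inr (Or.inr ?_)
        simp only [cop, if_neg hx, if_neg hy]

lemma emb_of_copy (G : SimpleGraph V) (a b : V) (K : Set V) (ha : a ∈ K) (hb : b ∈ K) (M : ℕ)
    (f : V → GV V M K) (hf : IsCopy G (GG G M K) f)
    (hne : ¬ EdgeIn G f s(cop M K 0 a, cop M K 0 b)) : Nonempty (Emb G a b K) := by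
  classical
  have key : ∀ x c, c ∈ K → (f x).1.2 = c → f x = cop M K 0 c := by
    intro x c hc h
    apply Subtype.ext
    apply Prod.ext
    · show (f x).1.1 = _
      rw [(f x).2 (by rw [h]; exact hc)]
      simp [cop, hc]
    · exact h
  refine ⟨⟨fun x => (f x).1.2, fun x => (f x).1.1.val, fun x y h => (hf.2 x y h).1, ?_, ?_, ?_⟩⟩
  · rintro x y h ⟨h1, h2⟩
    exact hne ⟨x, y, h, by rw [key x a ha h1, key y b hb h2]⟩
  · intro x y h hx hy
    rcases (hf.2 x y h).2 with h' | h' | h'
    · exact absurd h' hx
    · exact absurd h' hy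
    · show (f x).1.1.val = (f y).1.1.val
      rw [h']
  · intro x y h h'
    apply hf.1
    apply Subtype.ext
    apply Prod.ext
    · rcases h' with h' | h'
      · rw [(f x).2 h', (f y).2 (by rw [← h]; exact h')]
      · exact Fin.ext h'
    · exact h

/-- The gluing criterion: if no number of copies of `G`, glued along `K`, contains a copy of `G`
after the deletion of the edge `ab`, then `G` is not woven. -/
theorem not_woven [Finite V] (G : SimpleGraph V) (a b : V) (K : Set V) (h : Adm G a b K)
    (hE : IsEmpty (Emb G a b K)) : ¬ Woven G := by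
  classical
  rintro ⟨k, hk⟩
  have hfin : Finite (GV V (2 * k) K) := by
    unfold GV
    infer_instance
  have h0 := hk (GV V (2 * k) K) (GG G (2 * k) K) (cop (2 * k) K 0 a) (cop (2 * k) K 0 b)
    ((cop_copy G (2 * k) K 0).2 a b h.adj) (by
      intro f hf
      by_contra hne
      exact hE.elim (emb_of_copy G a b K h.aK h.bK (2 * k) f hf hne).some)
  obtain ⟨A, B, hA, hB, hAc, hBc, hAB⟩ := h0
  have hch : ∀ j : Fin (2 * k + 1), ∃ e, (e ∈ A ∨ e ∈ B) ∧
      ∃ x y, x ∈ K ∧ y ∉ K ∧ e = s(cop (2 * k) K 0 x, cop (2 * k) K j y) := by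
    intro j
    obtain ⟨e, he, x, y, hxy, hee⟩ := hAB (cop (2 * k) K j) (cop_copy G (2 * k) K j)
    refine ⟨e, he, ?_⟩
    have hK : ∀ c, c ∈ K → cop (2 * k) K j c = cop (2 * k) K 0 c := by
      intro c hc
      apply Subtype.ext
      simp [cop, hc]
    have hproj : ∀ x c, cop (2 * k) K 0 c = cop (2 * k) K j x → x = c := by
      intro x c h
      have := congrArg (fun z => z.1.2) h
      exact this.symm
    rcases he with he | he
    · obtain ⟨-, h2, h3⟩ := hA e he
      rw [← hee] at h2 h3
      rw [Sym2.mem_iff] at h3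
      rcases h3 with h3 | h3
      · have hx := hproj x a h3
        subst hx
        have hy : y ∉ K := by
          intro hy
          have := h.Na y hy hxy
          subst this
          exact h2 (by rw [hK x h.aK, hK y h.bK])
        exact ⟨x, y, h.aK, hy, by rw [← hee, hK x h.aK]⟩
      · have hx := hproj y a h3
        subst hx
        have hy : x ∉ K := by
          intro hy
          have := h.Na x hy hxy.symm
          subst this
          exact h2 (by rw [hK x h.bK, hK y h.aK, Sym2.eq_swap])
        exact ⟨y, x, h.aK, hy, by rw [← hee, hK y h.aK, Sym2.eq_swap]⟩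
    · obtain ⟨-, h2, h3⟩ := hB e he
      rw [← hee] at h2 h3
      rw [Sym2.mem_iff] at h3
      rcases h3 with h3 | h3
      · have hx := hproj x b h3
        subst hx
        have hy : y ∉ K := by
          intro hy
          have := h.Nb y hy hxy
          subst this
          exact h2 (by rw [hK x h.bK, hK y h.aK, Sym2.eq_swap])
        exact ⟨x, y, h.bK, hy, by rw [← hee, hK x h.bK]⟩
      · have hx := hproj y b h3
        subst hx
        have hy : x ∉ K := by
          intro hy
          have := h.Nb x hy hxy.symm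
          subst this
          exact h2 (by rw [hK x h.aK, hK y h.bK])
        exact ⟨y, x, h.bK, hy, by rw [← hee, hK y h.bK, Sym2.eq_swap]⟩
  choose e he using hch
  have hinj : Function.Injective e := by
    intro j j' hjj
    obtain ⟨-, x, y, hx, hy, h1⟩ := he j
    obtain ⟨-, x', y', hx', hy', h2⟩ := he j'
    rw [h1, h2, Sym2.eq_iff] at hjj
    rcases hjj with ⟨-, h3⟩ | ⟨h3, -⟩
    · have h4 := congrArg (fun z => z.1.1) h3
      simp only [cop] at h4
      rw [if_neg hy, if_neg hy'] at h4
      exact h4
    · exfalso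
      have h4 : x = y' := congrArg (fun z => z.1.2) h3
      exact hy' (h4 ▸ hx)
  have hsub : (Finset.univ.image e) ⊆ A ∪ B := by
    intro z hz
    rw [Finset.mem_image] at hz
    obtain ⟨j, -, rfl⟩ := hz
    rw [Finset.mem_union]
    exact (he j).1
  have hc := Finset.card_le_card hsub
  rw [Finset.card_image_of_injective _ hinj, Finset.card_univ, Fintype.card_fin] at hc
  have := Finset.card_union_le A B
  omega

/-- reversing the roles of `a` and `b` -/
def Emb.swap {G : SimpleGraph V} {a b : V} {K : Set V} (E : Emb G a b K) : Emb G b a K where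
  g := E.g
  i := E.i
  adj := E.adj
  nab := fun x y h h' => E.nab y x h.symm ⟨h'.2, h'.1⟩
  idx := E.idx
  inj := E.inj

lemma Adm.swap {G : SimpleGraph V} {a b : V} {K : Set V} (h : Adm G a b K) : Adm G b a K where
  adj := h.adj.symm
  ha := h.hb
  hb := h.ha
  aK := h.bK
  bK := h.aK
  Na := h.Nb
  Nb := h.Na

end

end Pool.Agent.R68.Wov
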