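import Mathlib
import Pool.Agent.R68.Woven.Block
import Pool.Agent.R68.Woven.Glue

/-!
# A connected graph containing a cycle is not woven (helper68)
-/

set_option autoImplicit false

namespace Pool.Agent.R68.Wov

open Relation

section retract

variable {V U : Type}

/-- retraction onto one side of a 2-separation -/
lemma retr (B : SimpleGraph U) (G : SimpleGraph V) (X : Set U) (p q : U)
    (hcross : ∀ x y, x ∈ X → y ∉ X → B.Adj x y → x = p ∨ x = q) (f : U → V)
    (hf : ∀ x y, x ∈ X → y ∈ X → B.Adj x y → G.Adj (f x) (f y)) (hpq : G.Adj (f p) (f q))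
    (E : Set U) (s : U) (hs : s = p ∨ s = q) (hsE : s ∈ E) (hsX : s ∈ X) (u v : U)
    (hu : u ∈ E ∩ X) (hv : v ∈ E ∩ X) (huv : Rch B E u v) :
    Rch G (f '' (E ∩ X)) (f u) (f v) := by
  classical
  let r : U → V := fun y => f (if y ∈ X then y else s)
  have hstep : ∀ x y, St B E x y → x ∈ X → y ∉ X → Rch G (f '' (E ∩ X)) (f x) (f s) := by
    intro x y hxy hx hy
    have h1 := hcross x y hx hy hxy.1
    by_cases hxs : x = s
    · rw [hxs]
    · refine ReflTransGen.single ⟨?_, ⟨x, ⟨hxy.2.1, hx⟩, rfl⟩, ⟨s, ⟨hsE, hsX⟩, rfl⟩⟩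
      rcases h1 with h1 | h1
      · rcases hs with h2 | h2
        · exact absurd (h1.trans h2.symm) hxs
        · rw [h1, h2]; exact hpq
      · rcases hs with h2 | h2
        · rw [h1, h2]; exact hpq.symm
        · exact absurd (h1.trans h2.symm) hxs
  have h2 : ∀ x y, St B E x y → Rch G (f '' (E ∩ X)) (r x) (r y) := by
    intro x y hxy
    by_cases hx : x ∈ X
    · by_cases hy : y ∈ X
      · simp only [r, if_pos hx, if_pos hy]
        exact ReflTransGen.single ⟨hf x y hx hy hxy.1, ⟨x, ⟨hxy.2.1, hx⟩, rfl⟩,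
          ⟨y, ⟨hxy.2.2, hy⟩, rfl⟩⟩
      · simp only [r, if_pos hx, if_neg hy]
        exact hstep x y hxy hx hy
    · by_cases hy : y ∈ X
      · simp only [r, if_pos hy, if_neg hx]
        exact (hstep y x ⟨hxy.1.symm, hxy.2.2, hxy.2.1⟩ hy hx).symm
      · simp only [r, if_neg hx, if_neg hy]
        exact ReflTransGen.refl
  have h3 := rtg_lift r h2 huv
  simpa only [r, if_pos hu.2, if_pos hv.2] using h3

end retract

section main

variable {V U : Type} [Finite V] [Finite U]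

/-- the situation of the proof: `B` is a largest two-connected subgraph (most vertices, then most
edges), `β0` a copy of `B`, all other copies of `B` lie beyond the vertex `β0 c0` -/
structure Sit (G : SimpleGraph V) (B : SimpleGraph U) (β0 : U → V) (c0 a0 b0 : U)
    (_i : ℕ) : Prop where
  con : Con G Set.univ
  tcB : TC B Set.univ
  three : 3 ≤ Nat.card U
  max : ∀ D, TC G D → D.ncard ≤ Nat.card U
  ind : ∀ β : U → V, IsCopy B G β → ∀ u v, G.Adj (β u) (β v) → B.Adj u v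
  cop : IsCopy B G β0
  endm : ∀ β : U → V, IsCopy B G β → Set.range β = Set.range β0 ∨
    ∀ u, β u ∈ Hg G (Set.range β0) (β0 c0)
  ab : B.Adj a0 b0
  ac : a0 ≠ c0
  bc : b0 ≠ c0

lemma card_range {β : U → V} (hβ : Function.Injective β) : (Set.range β).ncard = Nat.card U := by
  rw [← Set.image_univ, Set.ncard_image_of_injective _ hβ, Set.ncard_univ]

lemma Sit.blk {G : SimpleGraph V} {B : SimpleGraph U} {β0 : U → V} {c0 a0 b0 : U} {i : ℕ}
    (h : Sit G B β0 c0 a0 b0 i) {β : U → V} (hβ : IsCopy B G β) : Blk G (Set.range β) := by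
  refine ⟨tc_range h.tcB hβ, ?_, ?_⟩
  · rw [card_range hβ.1]; exact h.three
  · rw [card_range hβ.1]; exact h.max


variable {G : SimpleGraph V} {B : SimpleGraph U} {β0 : U → V} {c0 a0 b0 : U} {i : ℕ}

lemma Sit.notK (h : Sit G B β0 c0 a0 b0 i) {x : V} (hx : x ∈ Hg G (Set.range β0) (β0 c0)) :
    x ≠ β0 a0 ∧ x ≠ β0 b0 := by
  constructor
  · rintro rfl
    exact h.ac (h.cop.1 (Hg_mem hx ⟨a0, rfl⟩))
  · rintro rfl
    exact h.bc (h.cop.1 (Hg_mem hx ⟨b0, rfl⟩))

lemma Sit.notK' (h : Sit G B β0 c0 a0 b0 i) {x : V} (hx : x ∈ Hg G (Set.range β0) (β0 c0)) :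
    x ∉ ({β0 a0, β0 b0} : Set V) := by
  have := h.notK hx
  rintro (h1 | h1)
  · exact this.1 h1
  · exact this.2 h1

lemma Sit.edge (h : Sit G B β0 c0 a0 b0 i) {x y : V} (hx : x ∈ Hg G (Set.range β0) (β0 c0))
    (hxy : G.Adj x y) (hxc : x ≠ β0 c0) : y ∈ Hg G (Set.range β0) (β0 c0) :=
  Hg_edge (h.blk h.cop) ⟨c0, rfl⟩ hx hxy hxc

/-- one of the two ends of the deleted edge is missing -/
lemma Sit.r1 (h : Sit G B β0 c0 a0 b0 i) (E : Emb G (β0 a0) (β0 b0) {β0 a0, β0 b0})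
    {β : U → V} (hβ : IsCopy B G β)
    (hR : ∀ u, E.g (β u) ∈ Hg G (Set.range β0) (β0 c0) → E.g (β u) = β0 c0)
    (s t : V) (hsS : s ∈ Set.range β0) (htK : t ∈ ({β0 a0, β0 b0} : Set V))
    (hK : ∀ z ∈ ({β0 a0, β0 b0} : Set V), z = s ∨ z = t) (hs : ∀ u, E.g (β u) ≠ s) : False := by
  classical
  have hnK : ∀ x, E.g (β x) ≠ t → E.g (β x) ∉ ({β0 a0, β0 b0} : Set V) := by
    intro x hx hx'
    rcases hK _ hx' with h1 | h1
    · exact hs x h1
    · exact hx h1
  have hidx : ∀ u v, E.g (β u) ≠ t → E.g (β v) ≠ t → E.i (β u) = E.i (β v) := by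
    intro u v hu hv
    by_cases hex : ∃ b', E.g (β b') = t
    · obtain ⟨b', hb'⟩ := hex
      have h1 := h.tcB.2 b' (Set.mem_univ _) u ⟨Set.mem_univ _, fun h' => hu (h' ▸ hb')⟩ v
        ⟨Set.mem_univ _, fun h' => hv (h' ▸ hb')⟩
      have h2 : v ∈ {w | E.i (β u) = E.i (β w)} := by
        refine h1.stay rfl ?_
        intro x y hxy hx hy hxA
        have hx1 : E.g (β x) ≠ t := fun h' => hx.2 (hβ.1 (E.inj _ _ (h'.trans hb'.symm)
          (Or.inl (h' ▸ htK))))
        have hy1 : E.g (β y) ≠ t := fun h' => hy.2 (hβ.1 (E.inj _ _ (h'.trans hb'.symm)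
          (Or.inl (h' ▸ htK))))
        exact hxA.trans (E.idx _ _ (hβ.2 x y hxy) (hnK x hx1) (hnK y hy1))
      exact h2
    · push Not at hex
      have h1 := h.tcB.1 u (Set.mem_univ _) v (Set.mem_univ _)
      have h2 : v ∈ {w | E.i (β u) = E.i (β w)} := by
        refine h1.stay rfl ?_
        intro x y hxy hx hy hxA
        exact hxA.trans (E.idx _ _ (hβ.2 x y hxy) (hnK x (hex x)) (hnK y (hex y)))
      exact h2
  have hcopy : IsCopy B G (fun u => E.g (β u)) := by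
    refine ⟨?_, fun x y hxy => E.adj _ _ (hβ.2 x y hxy)⟩
    intro u v huv
    have huv' : E.g (β u) = E.g (β v) := huv
    by_cases hu : E.g (β u) = t
    · exact hβ.1 (E.inj _ _ huv' (Or.inl (hu ▸ htK)))
    · exact hβ.1 (E.inj _ _ huv' (Or.inr (hidx u v hu (huv' ▸ hu))))
  rcases h.endm _ hcopy with h1 | h1
  · rw [← h1] at hsS
    obtain ⟨u, hu⟩ := hsS
    exact hs u hu
  · have h2 : ∀ u, E.g (β u) = β0 c0 := fun u => hR u (h1 u)
    have hU1 : 1 < Nat.card U := by have := h.three; omega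
    have : Nontrivial U := Finite.one_lt_card_iff_nontrivial.mp hU1
    obtain ⟨u, v, huv⟩ := exists_pair_ne U
    exact huv (hcopy.1 ((h2 u).trans (h2 v).symm))

/-- both ends of the deleted edge are used -/
lemma Sit.r3 (h : Sit G B β0 c0 a0 b0 i) (E : Emb G (β0 a0) (β0 b0) {β0 a0, β0 b0})
    {β : U → V} (hβ : IsCopy B G β) (p q : U) (hp : E.g (β p) = β0 a0) (hq : E.g (β q) = β0 b0) :
    False := by
  classical
  have haK : β0 a0 ∈ ({β0 a0, β0 b0} : Set V) := Or.inl rfl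
  have hbK : β0 b0 ∈ ({β0 a0, β0 b0} : Set V) := Or.inr rfl
  have hpq : p ≠ q := by
    rintro rfl
    exact h.ab.ne (h.cop.1 (hp.symm.trans hq))
  have hnadj : ¬ B.Adj p q := fun h' => E.nab _ _ (hβ.2 p q h') ⟨hp, hq⟩
  have hpu : ∀ x, E.g (β x) = β0 a0 → x = p := fun x hx =>
    hβ.1 (E.inj _ _ (hx.trans hp.symm) (Or.inl (by rw [hx]; exact haK)))
  have hqu : ∀ x, E.g (β x) = β0 b0 → x = q := fun x hx =>
    hβ.1 (E.inj _ _ (hx.trans hq.symm) (Or.inl (by rw [hx]; exact hbK)))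
  have hnK : ∀ x, x ≠ p → x ≠ q → E.g (β x) ∉ ({β0 a0, β0 b0} : Set V) := by
    rintro x hxp hxq (h1 | h1)
    · exact hxp (hpu x h1)
    · exact hxq (hqu x h1)
  have hidx : ∀ x y, B.Adj x y → x ≠ p → x ≠ q → y ≠ p → y ≠ q → E.i (β x) = E.i (β y) :=
    fun x y hxy h1 h2 h3 h4 => E.idx _ _ (hβ.2 x y hxy) (hnK x h1 h2) (hnK y h3 h4)
  have hab : ¬ ((a0 = p ∨ a0 = q) ∧ (b0 = p ∨ b0 = q)) := by
    rintro ⟨h1 | h1, h2 | h2⟩
    · exact h.ab.ne (h1.trans h2.symm)
    · exact hnadj (by rw [← h1, ← h2]; exact h.ab)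
    · exact hnadj (by rw [← h1, ← h2]; exact h.ab.symm)
    · exact h.ab.ne (h1.trans h2.symm)
  have hj : ∃ j, (a0 = p ∨ a0 = q ∨ E.i (β a0) = j) ∧ (b0 = p ∨ b0 = q ∨ E.i (β b0) = j) := by
    by_cases h1 : a0 = p ∨ a0 = q
    · refine ⟨E.i (β b0), ?_, Or.inr (Or.inr rfl)⟩
      rcases h1 with h1 | h1
      · exact Or.inl h1
      · exact Or.inr (Or.inl h1)
    · push Not at h1
      refine ⟨E.i (β a0), Or.inr (Or.inr rfl), ?_⟩
      by_cases h2 : b0 = p
      · exact Or.inl h2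
      · by_cases h3 : b0 = q
        · exact Or.inr (Or.inl h3)
        · exact Or.inr (Or.inr (hidx a0 b0 h.ab h1.1 h1.2 h2 h3).symm)
  obtain ⟨j, hja, hjb⟩ := hj
  let X : Set U := {u | u = p ∨ u = q ∨ E.i (β u) = j}
  let Q : Set U := {u | u = p ∨ u = q ∨ E.i (β u) ≠ j}
  have hXQ : X ∪ Q = Set.univ := by
    ext u
    simp only [X, Q, Set.mem_union, Set.mem_ofPred_eq, Set.mem_univ, iff_true]
    by_cases h1 : E.i (β u) = j
    · exact Or.inl (Or.inr (Or.inr h1))
    · exact Or.inr (Or.inr (Or.inr h1))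
  have hint : X ∩ Q = {p, q} := by
    ext u
    simp only [X, Q, Set.mem_inter_iff, Set.mem_ofPred_eq, Set.mem_insert_iff,
      Set.mem_singleton_iff]
    constructor
    · rintro ⟨h1 | h1 | h1, h2⟩
      · exact Or.inl h1
      · exact Or.inr h1
      · rcases h2 with h2 | h2 | h2
        · exact Or.inl h2
        · exact Or.inr h2
        · exact absurd h1 h2
    · rintro (h1 | h1)
      · exact ⟨Or.inl h1, Or.inl h1⟩
      · exact ⟨Or.inr (Or.inl h1), Or.inr (Or.inl h1)⟩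
  have hcross : ∀ x y, x ∈ X → y ∉ X → B.Adj x y → x = p ∨ x = q := by
    intro x y hx hy hxy
    by_contra hcon
    push Not at hcon
    have hy' : y ≠ p ∧ y ≠ q ∧ E.i (β y) ≠ j := by
      simp only [X, Set.mem_ofPred_eq, not_or] at hy
      exact hy
    rcases hx with h1 | h1 | h1
    · exact hcon.1 h1
    · exact hcon.2 h1
    · exact hy'.2.2 ((hidx x y hxy hcon.1 hcon.2 hy'.1 hy'.2.1).symm.trans h1)
  have hno : ∀ x ∈ X, ∀ y ∈ Q, B.Adj x y → x ∈ Q ∨ y ∈ X := by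
    intro x hx y _ hxy
    by_cases hyX : y ∈ X
    · exact Or.inr hyX
    · rcases hcross x y hx hyX hxy with h1 | h1
      · exact Or.inl (Or.inl h1)
      · exact Or.inl (Or.inr (Or.inl h1))
  let f : U → V := fun u => E.g (β u)
  have hfinj : Set.InjOn f X := by
    intro u hu v hv huv
    have huv' : E.g (β u) = E.g (β v) := huv
    by_cases hu' : u = p ∨ u = q
    · have : E.g (β u) ∈ ({β0 a0, β0 b0} : Set V) := by
        rcases hu' with h1 | h1
        · rw [h1, hp]; exact haK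
        · rw [h1, hq]; exact hbK
      exact hβ.1 (E.inj _ _ huv' (Or.inl this))
    · push Not at hu'
      have hv' : v ≠ p ∧ v ≠ q := by
        constructor
        · rintro rfl
          exact hu'.1 (hpu u (huv'.trans hp))
        · rintro rfl
          exact hu'.2 (hqu u (huv'.trans hq))
      have e1 : E.i (β u) = j := by
        rcases hu with h1 | h1 | h1
        · exact absurd h1 hu'.1
        · exact absurd h1 hu'.2
        · exact h1
      have e2 : E.i (β v) = j := by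
        rcases hv with h1 | h1 | h1
        · exact absurd h1 hv'.1
        · exact absurd h1 hv'.2
        · exact h1
      exact hβ.1 (E.inj _ _ huv' (Or.inr (e1.trans e2.symm)))
  have hfhom : ∀ x y, x ∈ X → y ∈ X → B.Adj x y → G.Adj (f x) (f y) :=
    fun x y _ _ hxy => E.adj _ _ (hβ.2 x y hxy)
  have hpX : p ∈ X := Or.inl rfl
  have hqX : q ∈ X := Or.inr (Or.inl rfl)
  have hfpq : G.Adj (f p) (f q) := by
    show G.Adj (E.g (β p)) (E.g (β q))
    rw [hp, hq]
    exact h.cop.2 _ _ h.ab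
  have htc : TC G (f '' X) := by
    refine ⟨?_, ?_⟩
    · rintro _ ⟨u, hu, rfl⟩ _ ⟨v, hv, rfl⟩
      have h1 := retr B G X p q hcross f hfhom hfpq Set.univ p (Or.inl rfl) (Set.mem_univ _) hpX u v
        ⟨Set.mem_univ _, hu⟩ ⟨Set.mem_univ _, hv⟩ (h.tcB.1 u (Set.mem_univ _) v (Set.mem_univ _))
      rw [Set.univ_inter] at h1
      exact h1
    · rintro _ ⟨x, hx, rfl⟩
      rintro _ ⟨⟨u, hu, rfl⟩, hux⟩ _ ⟨⟨v, hv, rfl⟩, hvx⟩
      have hux' : u ≠ x := fun h => hux (by rw [h]; rfl)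
      have hvx' : v ≠ x := fun h => hvx (by rw [h]; rfl)
      have hs : ∃ s, (s = p ∨ s = q) ∧ s ∈ (Set.univ \ {x} : Set U) ∧ s ∈ X := by
        by_cases h : x = p
        · exact ⟨q, Or.inr rfl, ⟨Set.mem_univ _, fun h' => hpq (h.symm.trans h'.symm)⟩, hqX⟩
        · exact ⟨p, Or.inl rfl, ⟨Set.mem_univ _, fun h' => h h'.symm⟩, hpX⟩
      obtain ⟨s, hs1, hs2, hs3⟩ := hs
      have h1 := retr B G X p q hcross f hfhom hfpq (Set.univ \ {x}) s hs1 hs2 hs3 u v
        ⟨⟨Set.mem_univ _, hux'⟩, hu⟩ ⟨⟨Set.mem_univ _, hvx'⟩, hv⟩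
        (h.tcB.2 x (Set.mem_univ _) u ⟨Set.mem_univ _, hux'⟩ v ⟨Set.mem_univ _, hvx'⟩)
      refine h1.mono ?_
      rintro _ ⟨y, ⟨⟨_, hy2⟩, hy3⟩, rfl⟩
      refine ⟨⟨y, hy3, rfl⟩, ?_⟩
      intro h2
      exact hy2 (hfinj hy3 hx h2)
  have hsub : f '' X ⊆ Set.range β0 := by
    refine (h.blk h.cop).sub htc (β0 a0) (β0 b0) (fun h' => h.ab.ne (h.cop.1 h')) ⟨a0, rfl⟩
      ⟨p, hpX, hp⟩ ⟨b0, rfl⟩ ⟨q, hqX, hq⟩
  have hφex : ∀ u, ∃ w, u ∈ X → β0 w = f u := by
    intro u
    by_cases hu : u ∈ X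
    · obtain ⟨w, hw⟩ := hsub ⟨u, hu, rfl⟩
      exact ⟨w, fun _ => hw⟩
    · exact ⟨a0, fun h' => absurd h' hu⟩
  choose φ hφ using hφex
  refine lemma1 B h.tcB X Q hXQ p q hpq hint hno hnadj a0 b0 h.ab hja hjb φ ?_ ?_ ?_ ?_
  · intro u hu v hv huv
    apply hfinj hu hv
    rw [← hφ u hu, ← hφ v hv, huv]
  · intro x y hx hy hxy
    have h1 := hfhom x y hx hy hxy
    rw [← hφ x hx, ← hφ y hy] at h1
    exact h.ind β0 h.cop _ _ h1
  · apply h.cop.1
    rw [hφ p hpX]
    exact hp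
  · apply h.cop.1
    rw [hφ q hqX]
    exact hq

/-- Claim A: every copy of `B` is mapped into one of the parts attached at (a copy of) `c`. -/
lemma Sit.claimA (h : Sit G B β0 c0 a0 b0 i) (E : Emb G (β0 a0) (β0 b0) {β0 a0, β0 b0})
    {β : U → V} (hβ : IsCopy B G β) :
    ∃ j, ∀ u, E.g (β u) ∈ Hg G (Set.range β0) (β0 c0) ∧ E.i (β u) = j := by
  classical
  by_cases hcase : ∃ u0, E.g (β u0) ∈ Hg G (Set.range β0) (β0 c0) ∧ E.g (β u0) ≠ β0 c0
  · obtain ⟨u0, hu0, hu0c⟩ := hcase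
    refine ⟨E.i (β u0), ?_⟩
    by_contra hcon
    push Not at hcon
    obtain ⟨u1, hu1⟩ := hcon
    let A : Set U := {u | E.g (β u) ∈ Hg G (Set.range β0) (β0 c0) ∧ E.g (β u) ≠ β0 c0 ∧
      E.i (β u) = E.i (β u0)}
    have hstep : ∀ u v, B.Adj u v → u ∈ A → v ∉ A →
        E.g (β v) = β0 c0 ∧ E.i (β v) = E.i (β u0) := by
      intro u v huv hu hv
      have h1 := h.edge hu.1 (E.adj _ _ (hβ.2 u v huv)) hu.2.1
      have h2 : E.i (β u) = E.i (β v) := E.idx _ _ (hβ.2 u v huv) (h.notK' hu.1) (h.notK' h1)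
      by_cases h3 : E.g (β v) = β0 c0
      · exact ⟨h3, h2.symm.trans hu.2.2⟩
      · exact absurd ⟨h1, h3, h2.symm.trans hu.2.2⟩ hv
    by_cases hx : ∃ x, E.g (β x) = β0 c0 ∧ E.i (β x) = E.i (β u0)
    · obtain ⟨x, hx1, hx2⟩ := hx
      have hxu : ∀ y, E.g (β y) = β0 c0 → E.i (β y) = E.i (β u0) → y = x := fun y h1 h2 =>
        hβ.1 (E.inj _ _ (h1.trans hx1.symm) (Or.inr (h2.trans hx2.symm)))
      have hu1x : u1 ≠ x := by
        rintro rfl
        exact hu1 (hx1 ▸ Hg_self _ _ _) hx2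
      have h1 := h.tcB.2 x (Set.mem_univ _) u0 ⟨Set.mem_univ _, fun h' => hu0c (h' ▸ hx1)⟩ u1
        ⟨Set.mem_univ _, hu1x⟩
      have h2 : u1 ∈ A := by
        refine h1.stay ⟨hu0, hu0c, rfl⟩ ?_
        intro u v huv _ hv hu
        by_contra hvA
        obtain ⟨h3, h4⟩ := hstep u v huv hu hvA
        exact hv.2 (hxu v h3 h4)
      exact hu1 h2.1 h2.2.2
    · push Not at hx
      have h1 := h.tcB.1 u0 (Set.mem_univ _) u1 (Set.mem_univ _)
      have h2 : u1 ∈ A := by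
        refine h1.stay ⟨hu0, hu0c, rfl⟩ ?_
        intro u v huv _ hv hu
        by_contra hvA
        obtain ⟨h3, h4⟩ := hstep u v huv hu hvA
        exact hx v h3 h4
      exact hu1 h2.1 h2.2.2
  · exfalso
    have hR : ∀ u, E.g (β u) ∈ Hg G (Set.range β0) (β0 c0) → E.g (β u) = β0 c0 := by
      intro u hu
      by_contra h1
      exact hcase ⟨u, hu, h1⟩
    by_cases h1 : ∃ p, E.g (β p) = β0 a0
    · by_cases h2 : ∃ q, E.g (β q) = β0 b0
      · obtain ⟨p, hp⟩ := h1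
        obtain ⟨q, hq⟩ := h2
        exact h.r3 E hβ p q hp hq
      · push Not at h2
        exact h.r1 E hβ hR (β0 b0) (β0 a0) ⟨b0, rfl⟩ (Or.inl rfl)
          (by rintro z (h3 | h3)
              · exact Or.inr h3
              · exact Or.inl h3) h2
    · push Not at h1
      exact h.r1 E hβ hR (β0 a0) (β0 b0) ⟨a0, rfl⟩ (Or.inr rfl)
        (by rintro z (h3 | h3)
            · exact Or.inl h3
            · exact Or.inr h3) h1

theorem Sit.final (h : Sit G B β0 c0 a0 b0 i) :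
    IsEmpty (Emb G (β0 a0) (β0 b0) {β0 a0, β0 b0}) := by
  classical
  refine ⟨fun E => ?_⟩
  have hU1 : 1 < Nat.card U := by have := h.three; omega
  have hnt : Nontrivial U := Finite.one_lt_card_iff_nontrivial.mp hU1
  obtain ⟨j, hj⟩ := h.claimA E h.cop
  let X : Set V := {v | E.g v ∈ Hg G (Set.range β0) (β0 c0) ∧ E.i v = j}
  have hXinj : Set.InjOn E.g X := fun u hu v hv huv =>
    E.inj _ _ huv (Or.inr (hu.2.trans hv.2.symm))
  -- some vertex is outside `X`
  have hout : ∃ v1, v1 ∉ X := by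
    by_contra hcon
    push Not at hcon
    have h1 : (cps B G Set.univ).ncard ≤ (cps B G (Hg G (Set.range β0) (β0 c0))).ncard := by
      rw [← Set.InjOn.ncard_image (f := fun β : U → V => E.g ∘ β)
        (s := cps B G Set.univ)]
      · apply Set.ncard_le_ncard _ (Set.toFinite _)
        rintro _ ⟨β, hβ, rfl⟩
        refine ⟨⟨?_, fun x y hxy => E.adj _ _ (hβ.1.2 x y hxy)⟩, fun u => (hcon (β u)).1⟩
        intro u v huv
        exact hβ.1.1 (hXinj (hcon _) (hcon _) huv)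
      · intro β hβ γ hγ hbg
        funext u
        exact hXinj (hcon _) (hcon _) (congrFun hbg u)
    have h2 : (cps B G (Hg G (Set.range β0) (β0 c0))).ncard < (cps B G Set.univ).ncard := by
      apply Set.ncard_lt_ncard _ (Set.toFinite _)
      refine ⟨fun β hβ => ⟨hβ.1, fun _ => Set.mem_univ _⟩, fun hsub => ?_⟩
      have h3 := hsub ⟨h.cop, fun _ => Set.mem_univ _⟩
      exact (h.notK (h3.2 a0)).1 rfl
    omega
  obtain ⟨v1, hv1⟩ := hout
  -- a vertex of `X` not mapped to `c`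
  have hin : ∃ v2 ∈ X, E.g v2 ≠ β0 c0 := by
    obtain ⟨u, v, huv⟩ := exists_pair_ne U
    by_cases h1 : E.g (β0 u) = β0 c0
    · refine ⟨β0 v, hj v, fun h2 => huv ?_⟩
      exact h.cop.1 (hXinj (hj u) (hj v) (h1.trans h2.symm))
    · exact ⟨β0 u, hj u, h1⟩
  obtain ⟨v2, hv2, hv2c⟩ := hin
  have hstep : ∀ x y, G.Adj x y → x ∈ X → E.g x ≠ β0 c0 → y ∈ X := by
    intro x y hxy hx hxc
    have h1 := h.edge hx.1 (E.adj _ _ hxy) hxc
    have h2 : E.i x = E.i y := E.idx _ _ hxy (h.notK' hx.1) (h.notK' h1)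
    exact ⟨h1, h2.symm.trans hx.2⟩
  have hp : ∃ p ∈ X, E.g p = β0 c0 := by
    by_contra hcon
    push Not at hcon
    have h1 := h.con v2 (Set.mem_univ _) v1 (Set.mem_univ _)
    exact hv1 (h1.stay hv2 (fun x y hxy _ _ hx => hstep x y hxy hx (hcon x hx)))
  obtain ⟨p, hpX, hpc⟩ := hp
  have hpu : ∀ x ∈ X, E.g x = β0 c0 → x = p := fun x hx hxc => hXinj hx hpX (hxc.trans hpc.symm)
  let Q : Set V := {v | v ∉ X ∨ v = p}
  have hXQ : X ∪ Q = Set.univ := by
    ext v
    simp only [Set.mem_union, Set.mem_univ, iff_true]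
    by_cases h1 : v ∈ X
    · exact Or.inl h1
    · exact Or.inr (Or.inl h1)
  have hint : X ∩ Q = {p} := by
    ext v
    simp only [Set.mem_inter_iff, Set.mem_singleton_iff]
    constructor
    · rintro ⟨h1, h2 | h2⟩
      · exact absurd h1 h2
      · exact h2
    · rintro rfl
      exact ⟨hpX, Or.inr rfl⟩
  refine lemma2 B h.tcB h.three G h.con X Q hXQ p hint ?_ ?_ E.g hXinj
    (fun x y _ _ hxy => E.adj x y hxy) β0 h.cop hj (β0 c0) ⟨c0, rfl⟩ hpc ?_
  · intro x hx y hy hxy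
    by_cases hxp : x = p
    · exact Or.inl hxp
    · rcases hy with hy | hy
      · exact absurd (hstep x y hxy hx (fun h' => hxp (hpu x hx h'))) hy
      · exact Or.inr hy
  · intro β hβ u hu
    obtain ⟨j', hj'⟩ := h.claimA E hβ.1
    have h1 : j' = j := by
      rw [← (hj' u).2, hu]
      exact hpX.2
    have h2 : ∀ v, β v = p := by
      intro v
      have h3 : β v ∈ X := by
        have := hj' v
        rw [h1] at this
        exact this
      have h4 : β v ∈ X ∩ Q := ⟨h3, hβ.2 v⟩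
      rw [hint] at h4
      exact h4
    obtain ⟨u', v', huv⟩ := exists_pair_ne U
    exact huv (hβ.1.1 ((h2 u').trans (h2 v').symm))
  · intro x hx hxS
    exact Hg_mem hx.1 hxS


lemma Sit.adm (h : Sit G B β0 c0 a0 b0 i) : Adm G (β0 a0) (β0 b0) {β0 a0, β0 b0} := by
  have hother : ∀ x y : U, x ≠ y → ∃ z, B.Adj x z ∧ z ≠ y := by
    intro x y hxy
    have hex : ∃ w : U, w ≠ x ∧ w ≠ y := by
      by_contra hcon
      push Not at hcon
      have h1 : (Set.univ : Set U) ⊆ {x, y} := by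
        intro w _
        by_cases hw : w = x
        · exact Or.inl hw
        · exact Or.inr (hcon w hw)
      have h2 := Set.ncard_le_ncard h1 (Set.toFinite _)
      rw [Set.ncard_univ, Set.ncard_pair hxy] at h2
      have := h.three
      omega
    obtain ⟨w, hwx, hwy⟩ := hex
    have h1 := h.tcB.2 y (Set.mem_univ _) x ⟨Set.mem_univ _, hxy⟩ w ⟨Set.mem_univ _, hwy⟩
    rcases ReflTransGen.cases_head h1 with h2 | ⟨z, hz, -⟩
    · exact absurd h2.symm hwx
    · exact ⟨z, hz.1, hz.2.2.2⟩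
  refine ⟨h.cop.2 _ _ h.ab, ?_, ?_, Or.inl rfl, Or.inr rfl, ?_, ?_⟩
  · obtain ⟨z, hz, hzb⟩ := hother a0 b0 h.ab.ne
    exact ⟨β0 z, h.cop.2 _ _ hz, fun h' => hzb (h.cop.1 h')⟩
  · obtain ⟨z, hz, hza⟩ := hother b0 a0 h.ab.ne.symm
    exact ⟨β0 z, h.cop.2 _ _ hz, fun h' => hza (h.cop.1 h')⟩
  · rintro x (hx | hx) hax
    · exact absurd hx.symm hax.ne
    · exact hx
  · rintro x (hx | hx) hbx
    · exact hx
    · exact absurd hx.symm hbx.ne

end main

section assemble

variable {V : Type} [Finite V]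

/-- number of ordered adjacent pairs inside `S` -/
noncomputable def epairs (G : SimpleGraph V) (S : Set V) : Set (V × V) :=
  {e | G.Adj e.1 e.2 ∧ e.1 ∈ S ∧ e.2 ∈ S}

omit [Finite V] in
lemma rch_induce (G : SimpleGraph V) (S D : Set V) (hDS : D ⊆ S) {u v : V} (huv : Rch G D u v)
    (hu : u ∈ S) : ∀ hv : v ∈ S, Rch (G.induce S) (Subtype.val ⁻¹' D) ⟨u, hu⟩ ⟨v, hv⟩ := by
  induction huv with
  | refl => intro _; exact ReflTransGen.refl
  | tail _ h2 ih =>
    intro hv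
    exact ReflTransGen.tail (ih (hDS h2.2.1)) ⟨h2.1, h2.2.1, h2.2.2⟩

omit [Finite V] in
lemma tc_induce (G : SimpleGraph V) (S : Set V) (hS : TC G S) : TC (G.induce S) Set.univ := by
  refine ⟨?_, ?_⟩
  · intro u _ v _
    exact (rch_induce G S S (subset_refl _) (hS.1 u.1 u.2 v.1 v.2) u.2 v.2).mono
      (Set.subset_univ _)
  · intro x _ u hu v hv
    have hux : u.1 ≠ x.1 := fun h' => hu.2 (Subtype.ext h')
    have hvx : v.1 ≠ x.1 := fun h' => hv.2 (Subtype.ext h')
    have h1 := rch_induce G S (S \ {x.1}) Set.sdiff_subset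
      (hS.2 x.1 x.2 u.1 ⟨u.2, hux⟩ v.1 ⟨v.2, hvx⟩) u.2 v.2
    refine h1.mono ?_
    intro y hy
    exact ⟨Set.mem_univ _, fun h' => hy.2 (congrArg Subtype.val h')⟩

/-- A connected graph with a set without cut vertex of size at least three satisfies the gluing
criterion. -/
theorem crit_of_tc (G : SimpleGraph V) (hG : Con G Set.univ)
    (hD : ∃ D : Set V, TC G D ∧ 3 ≤ D.ncard) :
    ∃ a b : V, Adm G a b {a, b} ∧ IsEmpty (Emb G a b {a, b}) := by
  classical
  obtain ⟨D0, hD0, hD3⟩ := hD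
  -- largest
  obtain ⟨S1, hS1, hmax1⟩ := Set.exists_max_image {D : Set V | TC G D} Set.ncard (Set.toFinite _)
    ⟨D0, hD0⟩
  obtain ⟨S, ⟨hS, hScard⟩, hmax2⟩ := Set.exists_max_image
    {D : Set V | TC G D ∧ D.ncard = S1.ncard} (fun D => (epairs G D).ncard) (Set.toFinite _)
    ⟨S1, hS1, rfl⟩
  have hS3 : 3 ≤ S.ncard := by
    rw [hScard]
    exact hD3.trans (hmax1 D0 hD0)
  have hmax : ∀ D, TC G D → D.ncard ≤ S.ncard := fun D hD => by
    rw [hScard]
    exact hmax1 D hD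
  let B : SimpleGraph S := G.induce S
  have hB : TC B Set.univ := tc_induce G S hS
  have hcardS : Nat.card S = S.ncard := rfl
  have hinc : IsCopy B G Subtype.val := ⟨Subtype.val_injective, fun _ _ h => h⟩
  -- maximality of the number of edges
  have hind : ∀ β : S → V, IsCopy B G β → ∀ u v, G.Adj (β u) (β v) → B.Adj u v := by
    intro β hβ u v huv
    have h1 : TC G (Set.range β) := tc_range hB hβ
    have h2 : (Set.range β).ncard = S1.ncard := by
      rw [card_range hβ.1, hcardS, hScard]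
    have h3 := hmax2 _ ⟨h1, h2⟩
    let F : S × S → V × V := fun e => (β e.1, β e.2)
    let F0 : S × S → V × V := fun e => (e.1.1, e.2.1)
    have hF : Function.Injective F := by
      rintro ⟨a, b⟩ ⟨c, d⟩ h
      simp only [F, Prod.mk.injEq] at h
      exact Prod.ext (hβ.1 h.1) (hβ.1 h.2)
    have hF0 : Function.Injective F0 := by
      rintro ⟨a, b⟩ ⟨c, d⟩ h
      simp only [F0, Prod.mk.injEq] at h
      exact Prod.ext (Subtype.ext h.1) (Subtype.ext h.2)
    have e1 : epairs G S = F0 '' {e | B.Adj e.1 e.2} := by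
      ext ⟨x, y⟩
      constructor
      · rintro ⟨h, hx, hy⟩
        exact ⟨(⟨x, hx⟩, ⟨y, hy⟩), h, rfl⟩
      · rintro ⟨⟨a, b⟩, hab, h⟩
        simp only [F0, Prod.mk.injEq] at h
        obtain ⟨rfl, rfl⟩ := h
        exact ⟨hab, a.2, b.2⟩
    have e2 : F '' {e | B.Adj e.1 e.2} ⊆ epairs G (Set.range β) := by
      rintro _ ⟨⟨a, b⟩, hab, rfl⟩
      exact ⟨hβ.2 a b hab, ⟨a, rfl⟩, ⟨b, rfl⟩⟩
    have e3 : F '' {e | B.Adj e.1 e.2} = epairs G (Set.range β) := by
      apply Set.eq_of_subset_of_ncard_le e2 _ (Set.toFinite _)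
      rw [Set.ncard_image_of_injective _ hF, ← Set.ncard_image_of_injective _ hF0, ← e1]
      exact h3
    have e4 : (β u, β v) ∈ epairs G (Set.range β) := ⟨huv, ⟨u, rfl⟩, ⟨v, rfl⟩⟩
    rw [← e3] at e4
    obtain ⟨⟨a, b⟩, hab, h⟩ := e4
    simp only [F, Prod.mk.injEq] at h
    rw [← hβ.1 h.1, ← hβ.1 h.2]
    exact hab
  have hblk : ∀ β : S → V, IsCopy B G β → Blk G (Set.range β) := by
    intro β hβ
    refine ⟨tc_range hB hβ, ?_, ?_⟩
    · rw [card_range hβ.1, hcardS]; exact hS3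
    · rw [card_range hβ.1, hcardS]; exact hmax
  -- an end member
  have hU1 : 1 < Nat.card S := by rw [hcardS]; omega
  have hnt : Nontrivial S := Finite.one_lt_card_iff_nontrivial.mp hU1
  obtain ⟨s0, s1, hs01⟩ := exists_pair_ne S
  obtain ⟨⟨β0, c0⟩, hβ0, hmaxw⟩ := Set.exists_max_image
    {e : (S → V) × S | IsCopy B G e.1}
    (fun e => (cps B G (Hg G (Set.range e.1) (e.1 e.2))).ncard) (Set.toFinite _)
    ⟨(Subtype.val, s0), hinc⟩
  have hβ0' : IsCopy B G β0 := hβ0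
  have hside : ∀ β γ : S → V, IsCopy B G β → IsCopy B G γ → Set.range γ ≠ Set.range β →
      ∃ c ∈ Set.range β, Set.range γ ⊆ Hg G (Set.range β) c := by
    intro β γ hβ hγ hne
    have h1 : ∃ z ∈ Set.range γ, z ∉ Set.range β := by
      by_contra hcon
      push Not at hcon
      apply hne
      apply Set.eq_of_subset_of_ncard_le hcon _ (Set.toFinite _)
      rw [card_range hβ.1, card_range hγ.1]
    obtain ⟨z, hz, hzβ⟩ := h1
    obtain ⟨c, hc, hzc⟩ := Hg_cover hG ⟨β s0, ⟨s0, rfl⟩⟩ z (S := Set.range β)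
    refine ⟨c, hc, ?_⟩
    have hcH : c ∈ Hg G (Set.range β) c := Hg_self _ _ _
    refine TC.side (X := (Hg G (Set.range β) c)ᶜ ∪ {c}) (tc_range hB hγ) c ?_ ?_ ?_ hz ?_
    · ext y
      simp only [Set.mem_union, Set.mem_univ, iff_true]
      by_cases hy : y ∈ Hg G (Set.range β) c
      · exact Or.inr hy
      · exact Or.inl (Or.inl hy)
    · ext y
      constructor
      · rintro ⟨h1 | h1, h2⟩
        · exact absurd h2 h1
        · exact h1
      · intro h1
        rw [Set.mem_singleton_iff] at h1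
        rw [h1]
        exact ⟨Or.inr rfl, hcH⟩
    · intro x hx y hy hxy
      rcases hx with hx | hx
      · by_contra hcon
        push Not at hcon
        exact hx (Hg_edge (hblk β hβ) hc hy hxy.symm hcon.2)
      · exact Or.inl hx
    · rintro (h1 | h1)
      · exact h1 hzc
      · rw [Set.mem_singleton_iff] at h1
        exact hzβ (h1 ▸ hc)
  have hend : ∀ β : S → V, IsCopy B G β → Set.range β = Set.range β0 ∨
      ∀ u, β u ∈ Hg G (Set.range β0) (β0 c0) := by
    intro β1 hβ1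
    by_cases hne : Set.range β1 = Set.range β0
    · exact Or.inl hne
    right
    obtain ⟨c', hc', hsub⟩ := hside β0 β1 hβ0' hβ1 hne
    by_cases hcc : c' = β0 c0
    · intro u
      rw [← hcc]
      exact hsub ⟨u, rfl⟩
    exfalso
    obtain ⟨d, hd, hsub'⟩ := hside β1 β0 hβ1 hβ0' (Ne.symm hne)
    obtain ⟨d0, rfl⟩ := hd
    have hdisj : ∀ y ∈ Hg G (Set.range β0) (β0 c0), y ∉ Set.range β1 := by
      intro y hy hy1
      exact hcc (Hg_unique (hblk β0 hβ0') hc' ⟨c0, rfl⟩ (hsub hy1) hy)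
    have hinclu : Hg G (Set.range β0) (β0 c0) ⊆ Hg G (Set.range β1) (β1 d0) := by
      intro y hy
      have hy' : ReflTransGen (fun u v => G.Adj u v ∧ u ∉ Set.range β0) y (β0 c0) := hy
      induction hy' using ReflTransGen.head_induction_on with
      | refl => exact hsub' ⟨c0, rfl⟩
      | @head x z h1 h2 ih =>
        exact ReflTransGen.head ⟨h1.1, hdisj x (ReflTransGen.head h1 h2)⟩ (ih h2)
    have h1 := hmaxw (β1, d0) hβ1
    have h2 : (cps B G (Hg G (Set.range β0) (β0 c0))).ncard <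
        (cps B G (Hg G (Set.range β1) (β1 d0))).ncard := by
      apply Set.ncard_lt_ncard _ (Set.toFinite _)
      refine ⟨fun β hβ => ⟨hβ.1, fun u => hinclu (hβ.2 u)⟩, fun hsub2 => ?_⟩
      have h3 := hsub2 ⟨hβ0', fun u => hsub' ⟨u, rfl⟩⟩
      have h4 : ∀ u, β0 u = β0 c0 := fun u => Hg_mem (h3.2 u) ⟨u, rfl⟩
      exact hs01 (hβ0'.1 ((h4 s0).trans (h4 s1).symm))
    simp only at h1
    omega
  -- an edge avoiding `c0`
  have hedge : ∃ a0 b0 : S, B.Adj a0 b0 ∧ a0 ≠ c0 ∧ b0 ≠ c0 := by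
    have hex : ∃ x y : S, x ≠ c0 ∧ y ≠ c0 ∧ x ≠ y := by
      by_contra hcon
      push Not at hcon
      have hx : ∃ x : S, x ≠ c0 := by
        by_cases h1 : s0 = c0
        · exact ⟨s1, fun h2 => hs01 (h1.trans h2.symm)⟩
        · exact ⟨s0, h1⟩
      obtain ⟨x, hx⟩ := hx
      have h1 : (Set.univ : Set S) ⊆ {c0, x} := by
        intro w _
        by_cases hw : w = c0
        · exact Or.inl hw
        · exact Or.inr (hcon x w hx hw).symm
      have h2 := Set.ncard_le_ncard h1 (Set.toFinite _)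
      rw [Set.ncard_univ, Set.ncard_pair (Ne.symm hx), hcardS] at h2
      omega
    obtain ⟨x, y, hx, hy, hxy⟩ := hex
    have h1 := hB.2 c0 (Set.mem_univ _) x ⟨Set.mem_univ _, hx⟩ y ⟨Set.mem_univ _, hy⟩
    rcases ReflTransGen.cases_head h1 with h2 | ⟨z, hz, -⟩
    · exact absurd h2 hxy
    · exact ⟨x, z, hz.1, hx, hz.2.2.2⟩
  obtain ⟨a0, b0, hab, hac, hbc⟩ := hedge
  have hsit : Sit G B β0 c0 a0 b0 0 := ⟨hG, hB, by rw [hcardS]; exact hS3,
    by rw [hcardS]; exact hmax, hind, hβ0', hend, hab, hac, hbc⟩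
  exact ⟨β0 a0, β0 b0, hsit.adm, hsit.final⟩

/-- A connected graph which is not a tree satisfies the gluing criterion. -/
theorem crit_of_not_tree (G : SimpleGraph V) (hG : G.Connected) (hT : ¬ G.IsTree) :
    ∃ a b : V, Adm G a b {a, b} ∧ IsEmpty (Emb G a b {a, b}) := by
  classical
  have hcon : ∀ (G : SimpleGraph V) (u v : V), G.Reachable u v → Rch G Set.univ u v := by
    intro G u v h
    rw [SimpleGraph.reachable_iff_reflTransGen] at h
    exact rtg_lift (fun x => x) (fun a b hab => ReflTransGen.single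
      ⟨hab, Set.mem_univ _, Set.mem_univ _⟩) h
  have hac : ¬ G.IsAcyclic := fun h => hT ⟨hG, h⟩
  rw [SimpleGraph.isAcyclic_iff_forall_adj_isBridge] at hac
  push Not at hac
  obtain ⟨x, y, hxy, hbr⟩ := hac
  rw [SimpleGraph.isBridge_iff] at hbr
  push Not at hbr
  refine crit_of_tc G (fun u _ v _ => hcon G u v (hG.preconnected u v)) ?_
  refine exists_tc G (G.deleteEdges {s(x, y)}) (SimpleGraph.deleteEdges_le _) x y hxy ?_
    (hcon _ x y hbr)
  intro h
  rw [SimpleGraph.deleteEdges_adj] at h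
  exact h.2 rfl

/-- **Theorem.** A connected finite graph which is not a tree is not woven. -/
theorem not_woven_of_not_tree (G : SimpleGraph V) (hG : G.Connected) (hT : ¬ G.IsTree) :
    ¬ Woven G := by
  obtain ⟨a, b, hadm, hE⟩ := crit_of_not_tree G hG hT
  exact not_woven G a b {a, b} hadm hE

end assemble

end Pool.Agent.R68.Wov
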